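import Mathlib
import Pool.Agent.H232R3.CMOCore

/-!
# Completely multiplicative functions with `|S_f(N)| ≤ A N^(-θ)`: size of the values, Mellin
transform
-/

set_option autoImplicit false

namespace Pool.Agent.T6.H66.UG

open Filter Topology Finset MeasureTheory Set ArithmeticFunction
open Pool.H232R3

/-- the hypothesis on the summatory function -/
def Dec (f : ℕ → ℂ) (A θ : ℝ) : Prop := ∀ N : ℕ, 1 ≤ N → ‖SS f N‖ ≤ A * (N : ℝ) ^ (-θ)

lemma dec_A (f : ℕ → ℂ) (A θ : ℝ) (h : Dec f A θ) : ‖f 1‖ ≤ A := by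
  have := h 1 le_rfl
  simpa [SS] using this

lemma dec_const {f : ℕ → ℂ} {A θ : ℝ} (hθ : 0 < θ) (hA : 0 ≤ A) (h : Dec f A θ) (N : ℕ) :
    ‖SS f N‖ ≤ A := by
  rcases Nat.eq_zero_or_pos N with h0 | hpos
  · rw [h0, SS_zero]; simpa using hA
  · refine (h N hpos).trans ?_
    have h1 : (1 : ℝ) ≤ N := by exact_mod_cast hpos
    have : (N : ℝ) ^ (-θ) ≤ 1 := Real.rpow_le_one_of_one_le_of_nonpos h1 (by linarith)
    nlinarith

/-- the values: `|f n| ≤ n ^ (-θ)` -/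
lemma size (f : ArithmeticFunction ℂ) (h1 : f 1 = 1) (hf : ∀ m n, f (m * n) = f m * f n)
    {A θ : ℝ} (hθ : 0 < θ) (hθ1 : θ < 1) (hd : Dec (fun n => f n) A θ) (n : ℕ) (hn : 1 ≤ n) :
    ‖f n‖ ≤ (n : ℝ) ^ (-θ) := by
  have hA : 1 ≤ A := by
    have := dec_A _ _ _ hd
    simpa [h1] using this
  have hn0 : (0 : ℝ) < n := by exact_mod_cast hn
  rcases Nat.lt_or_ge 1 n with hn2 | hn2
  · -- powers
    have key : ∀ k : ℕ, 1 ≤ k → (‖f n‖ * (n : ℝ) ^ θ) ^ k ≤ 3 * A := by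
      intro k hk
      have hm2 : 2 ≤ n ^ k := le_trans hn2 (Nat.le_self_pow (by omega) n)
      have e1 : f (n ^ k) = SS (fun n => f n) (n ^ k) - SS (fun n => f n) (n ^ k - 1) := by
        have := SS_succ (fun n => f n) (n ^ k - 1)
        rw [show n ^ k - 1 + 1 = n ^ k by omega] at this
        rw [this]; ring
      have hm : (2 : ℝ) ≤ ((n ^ k : ℕ) : ℝ) := by exact_mod_cast hm2
      have hm0 : (0 : ℝ) < ((n ^ k : ℕ) : ℝ) := by linarith
      have e2 : ‖SS (fun n => f n) (n ^ k - 1)‖ ≤ A * (2 * ((n ^ k : ℕ) : ℝ) ^ (-θ)) := by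
        refine (hd (n ^ k - 1) (by omega)).trans ?_
        have hc : ((n ^ k - 1 : ℕ) : ℝ) = ((n ^ k : ℕ) : ℝ) - 1 := by
          rw [Nat.cast_sub (by omega)]; simp
        rw [hc]
        have h3 : (((n ^ k : ℕ) : ℝ) - 1) ^ (-θ) ≤ (((n ^ k : ℕ) : ℝ) / 2) ^ (-θ) :=
          Real.rpow_le_rpow_of_nonpos (by linarith) (by linarith) (by linarith)
        have h4 : (((n ^ k : ℕ) : ℝ) / 2) ^ (-θ) = 2 ^ θ * ((n ^ k : ℕ) : ℝ) ^ (-θ) := by
          rw [Real.div_rpow hm0.le (by norm_num), Real.rpow_neg (by norm_num : (0 : ℝ) ≤ 2)]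
          field_simp
        have h5 : (2 : ℝ) ^ θ ≤ 2 := by
          calc (2 : ℝ) ^ θ ≤ 2 ^ (1 : ℝ) := Real.rpow_le_rpow_of_exponent_le (by norm_num) hθ1.le
            _ = 2 := by norm_num
        have h6 : 0 ≤ ((n ^ k : ℕ) : ℝ) ^ (-θ) := by positivity
        have : (((n ^ k : ℕ) : ℝ) - 1) ^ (-θ) ≤ 2 * ((n ^ k : ℕ) : ℝ) ^ (-θ) := by
          rw [h4] at h3
          refine h3.trans (mul_le_mul_of_nonneg_right h5 h6)
        exact mul_le_mul_of_nonneg_left this (by linarith)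
      have e3 : ‖f (n ^ k)‖ ≤ 3 * A * ((n ^ k : ℕ) : ℝ) ^ (-θ) := by
        rw [e1]
        refine (norm_sub_le _ _).trans ?_
        have := hd (n ^ k) (by omega)
        linarith
      rw [cm_pow f h1 hf, norm_pow] at e3
      have e4 : (((n ^ k : ℕ) : ℝ) ^ (-θ)) * ((n : ℝ) ^ θ) ^ k = 1 := by
        push_cast
        rw [← Real.rpow_natCast, ← Real.rpow_natCast, ← Real.rpow_mul hn0.le,
          ← Real.rpow_mul hn0.le, ← Real.rpow_add hn0]
        rw [show (k : ℝ) * -θ + θ * (k : ℝ) = 0 by ring, Real.rpow_zero]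
      rw [mul_pow]
      calc ‖f n‖ ^ k * ((n : ℝ) ^ θ) ^ k ≤
            (3 * A * ((n ^ k : ℕ) : ℝ) ^ (-θ)) * ((n : ℝ) ^ θ) ^ k := by gcongr
        _ = 3 * A * ((((n ^ k : ℕ) : ℝ) ^ (-θ)) * ((n : ℝ) ^ θ) ^ k) := by ring
        _ = 3 * A := by rw [e4, mul_one]
    have hle : ‖f n‖ * (n : ℝ) ^ θ ≤ 1 := by
      by_contra hcon
      push Not at hcon
      have ht := tendsto_pow_atTop_atTop_of_one_lt hcon
      obtain ⟨k, hk⟩ := (ht.eventually_gt_atTop (3 * A)).and (eventually_ge_atTop 1) |>.exists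
      have := key k hk.2
      linarith [hk.1]
    rw [Real.rpow_neg hn0.le, ← one_div, le_div_iff₀ (by positivity)]
    exact hle
  · have : n = 1 := by omega
    rw [this, h1]; simp

/-- pointwise bound of the summatory function at real arguments -/
lemma floor_bound {f : ℕ → ℂ} {A θ : ℝ} (hθ : 0 < θ) (hθ1 : θ < 1) (hA : 0 ≤ A) (hd : Dec f A θ)
    (t : ℝ) (ht : 1 ≤ t) : ‖SS f ⌊t⌋₊‖ ≤ 2 * A * t ^ (-θ) := by
  have ht0 : 0 < t := by linarith
  have hN : 1 ≤ ⌊t⌋₊ := Nat.le_floor (by simpa using ht)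
  have hN' : (1 : ℝ) ≤ ⌊t⌋₊ := by exact_mod_cast hN
  have hfl : t < ⌊t⌋₊ + 1 := Nat.lt_floor_add_one t
  refine (hd _ hN).trans ?_
  have h3 : (⌊t⌋₊ : ℝ) ^ (-θ) ≤ (t / 2) ^ (-θ) :=
    Real.rpow_le_rpow_of_nonpos (by linarith) (by linarith) (by linarith)
  have h4 : (t / 2) ^ (-θ) = 2 ^ θ * t ^ (-θ) := by
    rw [Real.div_rpow ht0.le (by norm_num), Real.rpow_neg (by norm_num : (0 : ℝ) ≤ 2)]
    field_simp
  have h5 : (2 : ℝ) ^ θ ≤ 2 := by
    calc (2 : ℝ) ^ θ ≤ 2 ^ (1 : ℝ) := Real.rpow_le_rpow_of_exponent_le (by norm_num) hθ1.le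
      _ = 2 := by norm_num
  have h6 : 0 ≤ t ^ (-θ) := by positivity
  rw [h4] at h3
  calc A * (⌊t⌋₊ : ℝ) ^ (-θ) ≤ A * (2 * t ^ (-θ)) := by
        refine mul_le_mul_of_nonneg_left (h3.trans ?_) hA
        exact mul_le_mul_of_nonneg_right h5 h6
    _ = 2 * A * t ^ (-θ) := by ring

lemma phi_diff {f : ℕ → ℂ} {A θ : ℝ} (hθ : 0 < θ) (hθ1 : θ < 1) (hA : 0 ≤ A) (hd : Dec f A θ)
    (s : ℂ) (hs : -θ < s.re) : DifferentiableAt ℂ (Phi f) s := by
  have key : DifferentiableAt ℂ (mellin (fun t : ℝ => SS f ⌊t⌋₊)) (-s) := by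
    refine mellin_differentiableAt_of_isBigO_rpow (a := θ) (b := (-s).re - 1)
      (locInt_SSfloor f A (dec_const hθ hA hd)) ?_ ?_ ?_ ?_
    · refine Asymptotics.IsBigO.of_bound (2 * A) ?_
      filter_upwards [eventually_ge_atTop (1 : ℝ)] with t ht
      rw [Real.norm_eq_abs, abs_of_nonneg (by positivity)]
      exact floor_bound hθ hθ1 hA hd t ht
    · rw [Complex.neg_re]; linarith
    · refine Asymptotics.IsBigO.of_bound 1 ?_
      have : ∀ᶠ t in 𝓝[>] (0 : ℝ), t < 1 :=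
        (nhdsWithin_le_nhds) (Iio_mem_nhds one_pos)
      filter_upwards [this] with t ht
      rw [SSfloor_lt_one f t ht, norm_zero]
      positivity
    · linarith
  exact key.comp s (differentiable_neg s)

lemma phi_LSeries {f : ℕ → ℂ} {A θ : ℝ} (hθ : 0 < θ) (hA : 0 ≤ A) (hd : Dec f A θ) (s : ℂ)
    (hs : 0 < s.re) (hS : LSeriesSummable f s) : LSeries f s = s * Phi f s := by
  rw [Phi_eq_integral]
  refine LSeries_eq_mul_integral f le_rfl hs hS ?_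
  refine Asymptotics.IsBigO.of_bound A ?_
  refine Eventually.of_forall fun n => ?_
  simp only [Real.rpow_zero, norm_one, mul_one]
  exact dec_const hθ hA hd n

lemma phi_bound {f : ℕ → ℂ} {A θ : ℝ} (hθ : 0 < θ) (hθ1 : θ < 1) (hA : 0 ≤ A) (hd : Dec f A θ)
    (s : ℂ) (hs : -θ < s.re) : ‖Phi f s‖ ≤ 2 * A / (s.re + θ) := by
  rw [Phi_eq_integral]
  have hint : IntegrableOn (fun t : ℝ => 2 * A * t ^ (-θ - s.re - 1 : ℝ)) (Ioi 1) :=
    ((integrableOn_Ioi_rpow_of_lt (by linarith) one_pos).const_mul _)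
  have hle : ‖∫ t in Ioi (1 : ℝ), SS f ⌊t⌋₊ * (t : ℂ) ^ (-(s + 1))‖
      ≤ ∫ t in Ioi (1 : ℝ), 2 * A * t ^ (-θ - s.re - 1 : ℝ) := by
    refine norm_integral_le_of_norm_le hint ?_
    rw [ae_restrict_iff' measurableSet_Ioi]
    refine Eventually.of_forall fun t ht => ?_
    have ht1 : (1 : ℝ) < t := ht
    have ht0 : 0 < t := by linarith
    rw [norm_mul, Complex.norm_cpow_eq_rpow_re_of_pos ht0]
    have hre : (-(s + 1)).re = -s.re - 1 := by simp; ring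
    rw [hre]
    have h1 := floor_bound hθ hθ1 hA hd t ht1.le
    have h2 : t ^ (-θ - s.re - 1 : ℝ) = t ^ (-θ) * t ^ (-s.re - 1 : ℝ) := by
      rw [← Real.rpow_add ht0]; congr 1; ring
    rw [h2, ← mul_assoc]
    gcongr
  refine hle.trans (le_of_eq ?_)
  rw [integral_const_mul, integral_Ioi_rpow_of_lt (by linarith) one_pos, Real.one_rpow]
  have : -θ - s.re - 1 + 1 = -(s.re + θ) := by ring
  rw [this, neg_div_neg_eq, mul_one_div]

/-- the function `n ^ θ f n` -/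
noncomputable def tw (f : ArithmeticFunction ℂ) (θ : ℝ) : ArithmeticFunction ℂ :=
  ⟨fun n => ((n : ℝ) ^ θ : ℝ) * f n, by simp⟩

lemma tw_apply (f : ArithmeticFunction ℂ) (θ : ℝ) (n : ℕ) :
    tw f θ n = (((n : ℝ) ^ θ : ℝ) : ℂ) * f n := rfl

lemma tw_one (f : ArithmeticFunction ℂ) (h1 : f 1 = 1) (θ : ℝ) : tw f θ 1 = 1 := by
  rw [tw_apply, h1]; simp

lemma tw_mul (f : ArithmeticFunction ℂ) (hf : ∀ m n, f (m * n) = f m * f n) (θ : ℝ) (m n : ℕ) :
    tw f θ (m * n) = tw f θ m * tw f θ n := by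
  simp only [tw_apply, hf]
  rw [Nat.cast_mul, Real.mul_rpow (Nat.cast_nonneg _) (Nat.cast_nonneg _)]
  push_cast
  ring

lemma tw_le (f : ArithmeticFunction ℂ) (h1 : f 1 = 1) (hf : ∀ m n, f (m * n) = f m * f n)
    {A θ : ℝ} (hθ : 0 < θ) (hθ1 : θ < 1) (hd : Dec (fun n => f n) A θ) (n : ℕ) :
    ‖tw f θ n‖ ≤ 1 := by
  rcases Nat.eq_zero_or_pos n with h0 | hpos
  · rw [h0]; simp
  have hn0 : (0 : ℝ) < n := by exact_mod_cast hpos
  rw [tw_apply, norm_mul, Complex.norm_real, Real.norm_of_nonneg (by positivity)]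
  calc (n : ℝ) ^ θ * ‖f n‖ ≤ (n : ℝ) ^ θ * (n : ℝ) ^ (-θ) := by
        gcongr
        exact size f h1 hf hθ hθ1 hd n hpos
    _ = 1 := by rw [← Real.rpow_add hn0, add_neg_cancel, Real.rpow_zero]

lemma tw_term (f : ArithmeticFunction ℂ) (θ : ℝ) (s : ℂ) (n : ℕ) :
    LSeries.term (fun n => tw f θ n) s n = LSeries.term (fun n => f n) (s - θ) n := by
  rcases eq_or_ne n 0 with h0 | h0
  · simp [h0]
  rw [LSeries.term_of_ne_zero h0, LSeries.term_of_ne_zero h0, tw_apply]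
  have hn : (n : ℂ) ≠ 0 := by exact_mod_cast h0
  have hnn : (0 : ℝ) ≤ n := Nat.cast_nonneg n
  rw [Complex.cpow_sub _ _ hn, Complex.ofReal_cpow hnn]
  have h2 : (n : ℂ) ^ s ≠ 0 := by rw [Complex.cpow_ne_zero_iff]; left; exact hn
  have h3 : (n : ℂ) ^ (θ : ℂ) ≠ 0 := by rw [Complex.cpow_ne_zero_iff]; left; exact hn
  push_cast
  field_simp

lemma tw_summable (f : ArithmeticFunction ℂ) (h1 : f 1 = 1)
    (hf : ∀ m n, f (m * n) = f m * f n)
    {A θ : ℝ} (hθ : 0 < θ) (hθ1 : θ < 1) (hd : Dec (fun n => f n) A θ) (s : ℂ) (hs : 1 < s.re) :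
    LSeriesSummable (fun n => tw f θ n) s :=
  LSeriesSummable_of_bounded_of_one_lt_re (m := 1)
    (fun n _ => tw_le f h1 hf hθ hθ1 hd n) hs

/-- `∑ n ^ θ f(n) n ^ (-s) = (s - θ) Φ(s - θ)` -/
lemma tw_LSeries (f : ArithmeticFunction ℂ) (h1 : f 1 = 1)
    (hf : ∀ m n, f (m * n) = f m * f n)
    {A θ : ℝ} (hθ : 0 < θ) (hθ1 : θ < 1) (hd : Dec (fun n => f n) A θ) (s : ℂ) (hs : 1 < s.re) :
    LSeries (fun n => tw f θ n) s = (s - θ) * Phi (fun n => f n) (s - θ) := by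
  have hA : 0 ≤ A := by
    have := dec_A _ _ _ hd
    exact (norm_nonneg _).trans this
  have hsum := tw_summable f h1 hf hθ hθ1 hd s hs
  have hsum' : LSeriesSummable (fun n => f n) (s - θ) := by
    unfold LSeriesSummable at hsum ⊢
    exact hsum.congr fun n => tw_term f θ s n
  have hre : 0 < (s - θ).re := by simp; linarith
  rw [← phi_LSeries hθ hA hd (s - θ) hre hsum']
  unfold LSeries
  exact tsum_congr fun n => tw_term f θ s n

/-- bound of the Dirichlet series in `Re s ≥ x > 1` -/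
lemma LSeries_le (g : ℕ → ℂ) (hg : ∀ n, ‖g n‖ ≤ 1) (x : ℝ) (hx : 1 < x) (s : ℂ)
    (hs : x ≤ s.re) : ‖LSeries g s‖ ≤ ∑' n : ℕ, ((n : ℝ) ^ x)⁻¹ := by
  have hsum : Summable fun n : ℕ => ((n : ℝ) ^ x)⁻¹ := Real.summable_nat_rpow_inv.2 hx
  refine tsum_of_norm_bounded hsum.hasSum fun n => ?_
  rcases eq_or_ne n 0 with h0 | h0
  · simp [h0]
    positivity
  rw [LSeries.norm_term_eq, if_neg h0]
  have h1 : (1 : ℝ) ≤ n := by exact_mod_cast Nat.one_le_iff_ne_zero.2 h0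
  rw [← one_div]
  have h2 : (n : ℝ) ^ x ≤ (n : ℝ) ^ s.re := Real.rpow_le_rpow_of_exponent_le h1 hs
  exact div_le_div₀ zero_le_one (hg n) (by positivity) h2

end Pool.Agent.T6.H66.UG
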