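import Mathlib
import Pool.Agent.H232R3.CMOCore

/-!
# The coefficients of `ζ G` and `ζ² G G*`
-/

set_option autoImplicit false

namespace Pool.Agent.T6.H66.UG

open Finset ArithmeticFunction
open scoped ComplexOrder ComplexConjugate
open Pool.H232R3

/-- the constant function one -/
noncomputable def one' : ArithmeticFunction ℂ := ((zeta : ArithmeticFunction ℕ) : ArithmeticFunction ℂ)

lemma one'_apply (n : ℕ) (hn : n ≠ 0) : one' n = 1 := by
  simp [one', natCoe_apply, zeta_apply, hn]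

lemma one'_mul (m n : ℕ) : one' (m * n) = one' m * one' n := by
  rcases eq_or_ne m 0 with h | h
  · simp [h]
  rcases eq_or_ne n 0 with h' | h'
  · simp [h']
  rw [one'_apply _ h, one'_apply _ h', one'_apply _ (mul_ne_zero h h'), one_mul]

lemma one'_one : one' 1 = 1 := one'_apply 1 one_ne_zero

lemma two_nonneg (g₁ g₂ : ArithmeticFunction ℂ)
    (h₁ : ∀ m n, g₁ (m * n) = g₁ m * g₁ n) (h₂ : ∀ m n, g₂ (m * n) = g₂ m * g₂ n)
    (o₁ : g₁ 1 = 1) (o₂ : g₂ 1 = 1)
    (hpos : ∀ p k : ℕ, p.Prime → 0 < k → 0 ≤ g₁ (p ^ k) + g₂ (p ^ k)) :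
    ∀ n, 0 ≤ (g₁ * g₂) n := by
  refine nonneg_of_DL _ (gL g₁ + gL g₂) ?_ ?_ ?_ ?_
  · rw [mul_apply]; simp [o₁, o₂]
  · simp [gL_one]
  · intro n
    simp only [ArithmeticFunction.add_apply, gL_apply]
    rw [← add_mul]
    by_cases hn : IsPrimePow n
    · obtain ⟨p, k, hp, hk, rfl⟩ := hn
      refine mul_nonneg (hpos p k hp.nat_prime hk) ?_
      rw [Complex.zero_le_real]
      exact vonMangoldt_nonneg
    · rw [vonMangoldt_eq_zero_iff.mpr hn]; simp
  · rw [DL_mul, DL_cm g₁ h₁, DL_cm g₂ h₂]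
    ring

/-- the convolution at the square of a prime -/
lemma conv_sq (u v : ArithmeticFunction ℂ) (p : ℕ) (hp : p.Prime) :
    (u * v) (p ^ 2) = u 1 * v (p ^ 2) + u p * v p + u (p ^ 2) * v 1 := by
  rw [mul_apply, Nat.sum_divisorsAntidiagonal (f := fun a b => u a * v b),
    Nat.sum_divisors_prime_pow hp]
  rw [Finset.sum_range_succ, Finset.sum_range_succ, Finset.sum_range_one]
  have hp0 : 0 < p := hp.pos
  have e1 : p ^ 2 / p = p := by rw [pow_two, Nat.mul_div_cancel _ hp0]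
  have e2 : p ^ 2 / p ^ 2 = 1 := Nat.div_self (by positivity)
  simp only [pow_zero, Nat.div_one, e1, e2, pow_one]

lemma conv_p (u v : ArithmeticFunction ℂ) (p : ℕ) (hp : p.Prime) :
    (u * v) p = u 1 * v p + u p * v 1 := by
  rw [mul_apply, Nat.sum_divisorsAntidiagonal (f := fun a b => u a * v b), hp.sum_divisors]
  simp only [Nat.div_one, Nat.div_self hp.pos]
  ring

lemma conv_one (u v : ArithmeticFunction ℂ) : (u * v) 1 = u 1 * v 1 := by
  rw [mul_apply]; simp

/-- real coefficients: `ζ G` -/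
lemma real_nonneg (g : ArithmeticFunction ℂ) (h1 : g 1 = 1)
    (hg : ∀ m n, g (m * n) = g m * g n) (hb : ∀ n, ‖g n‖ ≤ 1) (hr : ∀ n, (g n).im = 0) :
    ∀ n, 0 ≤ (one' * g) n := by
  refine two_nonneg _ _ one'_mul hg one'_one h1 fun p k hp hk => ?_
  rw [one'_apply _ (pow_ne_zero _ hp.ne_zero), Complex.le_def]
  have h2 := Complex.abs_re_le_norm (g (p ^ k))
  have h3 := abs_le.1 (h2.trans (hb (p ^ k)))
  constructor
  · simp; linarith [h3.1]
  · simp [hr]

lemma real_sq (g : ArithmeticFunction ℂ) (h1 : g 1 = 1)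
    (hg : ∀ m n, g (m * n) = g m * g n) (hr : ∀ n, (g n).im = 0)
    (p : ℕ) (hp : p.Prime) : 3 / 4 ≤ ((one' * g) (p ^ 2)).re := by
  rw [conv_sq _ _ p hp, one'_one, one'_apply p hp.ne_zero,
    one'_apply _ (pow_ne_zero _ hp.ne_zero), h1, pow_two, hg]
  simp only [Complex.add_re, one_mul, Complex.mul_re, Complex.one_re, hr, mul_zero, sub_zero]
  nlinarith [sq_nonneg ((g p).re + 1 / 2)]

/-- complex coefficients: `ζ² G G*` -/
lemma cplx_nonneg (g : ArithmeticFunction ℂ) (h1 : g 1 = 1)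
    (hg : ∀ m n, g (m * n) = g m * g n) (hb : ∀ n, ‖g n‖ ≤ 1) :
    ∀ n, 0 ≤ (one' * one' * (g * cj g)) n := by
  refine four_nonneg _ _ _ _ one'_mul one'_mul hg ?_ one'_one one'_one h1 ?_ fun p k hp hk => ?_
  · intro m n; simp only [cj_apply, hg, map_mul]
  · rw [cj_apply, h1, map_one]
  · rw [one'_apply _ (pow_ne_zero _ hp.ne_zero), cj_apply, Complex.le_def]
    have h2 := Complex.abs_re_le_norm (g (p ^ k))
    have h3 := abs_le.1 (h2.trans (hb (p ^ k)))
    constructor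
    · simp; linarith [h3.1]
    · simp

lemma cplx_sq (g : ArithmeticFunction ℂ) (h1 : g 1 = 1)
    (hg : ∀ m n, g (m * n) = g m * g n) (hb : ∀ n, ‖g n‖ ≤ 1)
    (p : ℕ) (hp : p.Prime) : 3 / 4 ≤ ((one' * one' * (g * cj g)) (p ^ 2)).re := by
  have hc : one' * one' * (g * cj g) = (one' * g) * (one' * cj g) := by ring
  have hsq : g (p ^ 2) = g p * g p := by rw [pow_two, hg]
  rw [hc, conv_sq _ _ p hp, conv_one, conv_one, conv_sq _ _ p hp, conv_sq _ _ p hp,
    conv_p _ _ p hp, conv_p _ _ p hp, one'_one, one'_apply p hp.ne_zero,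
    one'_apply _ (pow_ne_zero _ hp.ne_zero), cj_apply, cj_apply, cj_apply, h1, hsq]
  have h4 : (g p).re ^ 2 + (g p).im ^ 2 ≤ 1 := by
    have h5 := hb p
    have h6 : ‖g p‖ ^ 2 ≤ 1 := by
      have := norm_nonneg (g p)
      nlinarith
    rw [← Complex.normSq_eq_norm_sq, Complex.normSq_apply] at h6
    nlinarith
  simp only [map_mul, map_one, one_mul, mul_one, Complex.add_re, Complex.mul_re, Complex.one_re,
    Complex.conj_re, Complex.conj_im, Complex.add_im, Complex.one_im]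
  nlinarith [sq_nonneg (2 * (g p).re + 1)]

end Pool.Agent.T6.H66.UG
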