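import Mathlib

/-!
# Lower bound for the Taylor coefficients of a Dirichlet series with nonnegative coefficients which
are at least `3/4` at the squares of the primes
-/

set_option autoImplicit false

namespace Pool.Agent.T6.H66.UG

open Filter Topology Finset Real

/-- Chebyshev: the primes in `(y, 4 y]` -/
lemma window : ∀ᶠ y : ℝ in atTop, y ≤ Chebyshev.theta (4 * y) - Chebyshev.theta y := by
  have h1 : (fun y : ℝ => Real.log (4 * y)) =o[atTop] fun y : ℝ => (4 * y) ^ (1 / 4 : ℝ) := by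
    have := (isLittleO_log_rpow_atTop (show (0 : ℝ) < 1 / 4 by norm_num))
    exact this.comp_tendsto (tendsto_id.const_mul_atTop (by norm_num : (0 : ℝ) < 4))
  have h2 := h1.def (show (0 : ℝ) < 1 / 100 by norm_num)
  filter_upwards [h2, eventually_ge_atTop (1000 : ℝ)] with y hy hy1
  have hy0 : 0 < y := by linarith
  have hlog0 : 0 ≤ Real.log (4 * y) := Real.log_nonneg (by linarith)
  rw [Real.norm_of_nonneg hlog0, Real.norm_of_nonneg (by positivity)] at hy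
  have e1 : (4 * y) ^ (1 / 4 : ℝ) ≤ √(4 * y) := by
    rw [Real.sqrt_eq_rpow]
    exact Real.rpow_le_rpow_of_exponent_le (by linarith) (by norm_num)
  have e2 : √(4 * y) * (4 * y) ^ (1 / 4 : ℝ) ≤ 4 * y := by
    calc √(4 * y) * (4 * y) ^ (1 / 4 : ℝ) ≤ √(4 * y) * √(4 * y) := by gcongr
      _ = 4 * y := Real.mul_self_sqrt (by linarith)
  have e3 : √(4 * y) * Real.log (4 * y) ≤ 4 * y / 100 := by
    calc √(4 * y) * Real.log (4 * y) ≤ √(4 * y) * (1 / 100 * (4 * y) ^ (1 / 4 : ℝ)) := by gcongr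
      _ = (√(4 * y) * (4 * y) ^ (1 / 4 : ℝ)) / 100 := by ring
      _ ≤ 4 * y / 100 := by gcongr
  have e4 : Real.log (4 * y + 2) ≤ Real.log (4 * y) + 1 := by
    have : Real.log (4 * y + 2) ≤ Real.log (4 * y * 2) :=
      Real.log_le_log (by linarith) (by linarith)
    rw [Real.log_mul (by positivity) (by norm_num)] at this
    have := Real.log_two_lt_d9
    linarith
  have e5 : Real.log (4 * y) ≤ √(4 * y) * Real.log (4 * y) := by
    have : 1 ≤ √(4 * y) := by rw [Real.one_le_sqrt]; linarith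
    nlinarith
  have e6 := Chebyshev.theta_ge' (x := 4 * y) (by linarith)
  have e7 := Chebyshev.theta_le_log4_mul_x (x := y) hy0.le
  have e8 : Real.log 4 = 2 * Real.log 2 := by
    rw [show (4 : ℝ) = 2 ^ 2 by norm_num, Real.log_pow]; norm_num
  have e9 := Real.log_two_gt_d9
  have e10 := Real.log_two_lt_d9
  rw [e8] at e7
  nlinarith

lemma card_window (y : ℝ) (hy : 1 ≤ y) (h : y ≤ Chebyshev.theta (4 * y) - Chebyshev.theta y) :
    y ≤ ((Finset.Ioc ⌊y⌋₊ ⌊4 * y⌋₊).filter Nat.Prime).card * Real.log (4 * y) := by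
  refine h.trans ?_
  unfold Chebyshev.theta
  have hle : ⌊y⌋₊ ≤ ⌊4 * y⌋₊ := Nat.floor_le_floor (by linarith)
  have hsplit : (Finset.Ioc 0 ⌊4 * y⌋₊).filter Nat.Prime =
      (Finset.Ioc 0 ⌊y⌋₊).filter Nat.Prime ∪ (Finset.Ioc ⌊y⌋₊ ⌊4 * y⌋₊).filter Nat.Prime := by
    rw [← Finset.filter_union, Finset.Ioc_union_Ioc_eq_Ioc (Nat.zero_le _) hle]
  have hdisj : Disjoint ((Finset.Ioc 0 ⌊y⌋₊).filter Nat.Prime)
      ((Finset.Ioc ⌊y⌋₊ ⌊4 * y⌋₊).filter Nat.Prime) := by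
    rw [Finset.disjoint_left]
    intro x hx hx'
    simp only [Finset.mem_filter, Finset.mem_Ioc] at hx hx'
    omega
  rw [hsplit, Finset.sum_union hdisj, add_sub_cancel_left, ← nsmul_eq_mul]
  refine Finset.sum_le_card_nsmul _ _ _ fun p hp => ?_
  simp only [Finset.mem_filter, Finset.mem_Ioc] at hp
  refine Real.log_le_log (by exact_mod_cast hp.2.pos) ?_
  exact (Nat.le_floor_iff (by linarith)).1 hp.1.2

lemma factorial_le (j : ℕ) (hj : 1 ≤ j) :
    (j.factorial : ℝ) ≤ Real.exp 1 * √j * (j / Real.exp 1) ^ j := by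
  obtain ⟨k, rfl⟩ : ∃ k, j = k + 1 := ⟨j - 1, by omega⟩
  have h := Stirling.stirlingSeq'_antitone (Nat.zero_le k)
  simp only [Function.comp, Nat.succ_eq_add_one, zero_add] at h
  rw [Stirling.stirlingSeq_one, Stirling.stirlingSeq, div_le_iff₀ (by positivity)] at h
  refine h.trans (le_of_eq ?_)
  rw [Real.sqrt_mul (by norm_num)]
  have : √2 ≠ 0 := by positivity
  field_simp

/-- the lower bound -/
lemma lower (a0 : ℝ) (ha0 : 1 < a0) (t : ℝ) (ht : 0 < t) :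
    ∃ c : ℝ, 0 < c ∧ ∃ J : ℕ, ∀ j : ℕ, J ≤ j → ∀ a : ℕ → ℝ, (∀ n, 0 ≤ a n) →
      (∀ p : ℕ, p.Prime → 3 / 4 ≤ a (p ^ 2)) →
      (Summable fun n : ℕ => a n * Real.log n ^ j * (n : ℝ) ^ (-a0)) →
      c / ((a0 - 1 / 2) * (1 + t)) ^ j * j.factorial ≤
        ∑' n : ℕ, a n * Real.log n ^ j * (n : ℝ) ^ (-a0) := by
  -- polynomial against exponential
  have hpoly : ∀ᶠ j : ℕ in atTop, ((j : ℝ) + 2) ^ 2 ≤ (1 + t) ^ j := by
    have h1 : Tendsto (fun j : ℕ => (j : ℝ) ^ 2 / (1 + t) ^ j) atTop (𝓝 0) :=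
      tendsto_pow_const_div_const_pow_of_one_lt 2 (by linarith)
    have h2 : ∀ᶠ j : ℕ in atTop, (j : ℝ) ^ 2 / (1 + t) ^ j < 1 / 9 :=
      (tendsto_order.1 h1).2 _ (by norm_num)
    filter_upwards [h2, eventually_ge_atTop 1] with j hj hj1
    rw [div_lt_iff₀ (by positivity)] at hj
    have : (1 : ℝ) ≤ j := by exact_mod_cast hj1
    nlinarith
  obtain ⟨Y, hY⟩ := eventually_atTop.1 window
  have hbig : ∀ᶠ j : ℕ in atTop, max Y 1 ≤ Real.exp (j / (2 * a0 - 1)) := by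
    have : Tendsto (fun j : ℕ => Real.exp ((j : ℝ) / (2 * a0 - 1))) atTop atTop :=
      Real.tendsto_exp_atTop.comp
        ((tendsto_natCast_atTop_atTop (R := ℝ)).atTop_div_const (by linarith))
    exact this.eventually_ge_atTop _
  obtain ⟨J, hJ⟩ := eventually_atTop.1 (hpoly.and (hbig.and (eventually_ge_atTop 1)))
  refine ⟨1 / 4 * (4 : ℝ) ^ (-(2 * a0)), by positivity, J, fun j hj a ha hap hsum => ?_⟩
  obtain ⟨hp1, hp2, hj1⟩ := hJ j hj
  set y := Real.exp (j / (2 * a0 - 1)) with hy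
  have hy0 : 0 < y := Real.exp_pos _
  have hy1 : 1 ≤ y := (le_max_right _ _).trans hp2
  have hyY : Y ≤ y := (le_max_left _ _).trans hp2
  set P := (Finset.Ioc ⌊y⌋₊ ⌊4 * y⌋₊).filter Nat.Prime with hP
  have hcard := card_window y hy1 (hY y hyY)
  rw [← hP] at hcard
  have hlogy : Real.log y = j / (2 * a0 - 1) := Real.log_exp _
  have hlog4y : Real.log (4 * y) ≤ j + 2 := by
    rw [Real.log_mul (by norm_num) hy0.ne', hlogy]
    have e8 : Real.log 4 = 2 * Real.log 2 := by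
      rw [show (4 : ℝ) = 2 ^ 2 by norm_num, Real.log_pow]; norm_num
    have e10 := Real.log_two_lt_d9
    have : (j : ℝ) / (2 * a0 - 1) ≤ j := div_le_self (by positivity) (by linarith)
    linarith
  have hlog4y0 : 0 < Real.log (4 * y) := Real.log_pos (by linarith)
  -- the terms
  set T : ℕ → ℝ := fun n => a n * Real.log n ^ j * (n : ℝ) ^ (-a0) with hT
  have hT0 : ∀ n, 0 ≤ T n := fun n => by
    have : 0 ≤ Real.log (n : ℝ) := Real.log_natCast_nonneg n
    exact mul_nonneg (mul_nonneg (ha n) (by positivity)) (by positivity)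
  have hterm : ∀ p ∈ P, 3 / 4 * (j / (a0 - 1 / 2)) ^ j * (4 * y) ^ (-(2 * a0)) ≤ T (p ^ 2) := by
    intro p hp
    simp only [hP, Finset.mem_filter, Finset.mem_Ioc] at hp
    obtain ⟨⟨hpl, hpu⟩, hpp⟩ := hp
    have hp0 : (0 : ℝ) < p := by exact_mod_cast hpp.pos
    have hpy : y ≤ p := (Nat.lt_of_floor_lt hpl).le
    have hpy4 : (p : ℝ) ≤ 4 * y := (Nat.le_floor_iff (by linarith)).1 hpu
    have h1 : (j : ℝ) / (a0 - 1 / 2) ≤ Real.log ((p ^ 2 : ℕ) : ℝ) := by
      push_cast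
      rw [Real.log_pow]
      have h2 : Real.log y ≤ Real.log p := Real.log_le_log hy0 hpy
      rw [hlogy] at h2
      have h3 : (j : ℝ) / (a0 - 1 / 2) = 2 * (j / (2 * a0 - 1)) := by
        have : a0 - 1 / 2 ≠ 0 := by intro h; linarith
        have : 2 * a0 - 1 ≠ 0 := by intro h; linarith
        rw [show a0 - 1 / 2 = (2 * a0 - 1) / 2 by ring]
        field_simp
      rw [h3]
      push_cast
      linarith
    have h4 : (4 * y) ^ (-(2 * a0)) ≤ ((p ^ 2 : ℕ) : ℝ) ^ (-a0) := by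
      push_cast
      rw [← Real.rpow_natCast, ← Real.rpow_mul hp0.le]
      rw [show ((2 : ℕ) : ℝ) * -a0 = -(2 * a0) by push_cast; ring]
      exact Real.rpow_le_rpow_of_nonpos hp0 hpy4 (by linarith)
    have h5 : 0 ≤ (j : ℝ) / (a0 - 1 / 2) := div_nonneg (by positivity) (by linarith)
    show _ ≤ a (p ^ 2) * Real.log ((p ^ 2 : ℕ) : ℝ) ^ j * ((p ^ 2 : ℕ) : ℝ) ^ (-a0)
    have h6 := hap p hpp
    gcongr
  have hinj : Set.InjOn (fun p : ℕ => p ^ 2) (P : Set ℕ) := fun p _ q _ h =>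
    Nat.pow_left_injective (by norm_num) h
  have hsumle : ∑ p ∈ P, T (p ^ 2) ≤ ∑' n, T n := by
    rw [← Finset.sum_image (f := T) hinj]
    exact hsum.sum_le_tsum _ fun n _ => hT0 n
  refine le_trans ?_ (le_trans (Finset.sum_le_sum hterm) hsumle)
  rw [Finset.sum_const, nsmul_eq_mul]
  -- numerical part
  have hA : y * (4 * y) ^ (-(2 * a0)) = (4 : ℝ) ^ (-(2 * a0)) * Real.exp (-(j : ℝ)) := by
    rw [Real.mul_rpow (by norm_num) hy0.le]
    have : y ^ (-(2 * a0)) * y = Real.exp (-(j : ℝ)) := by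
      rw [hy, ← Real.exp_mul, ← Real.exp_add]
      congr 1
      have : 2 * a0 - 1 ≠ 0 := by intro h; linarith
      field_simp
      ring
    calc y * (4 ^ (-(2 * a0)) * y ^ (-(2 * a0))) = 4 ^ (-(2 * a0)) * (y ^ (-(2 * a0)) * y) := by ring
      _ = _ := by rw [this]
  have hB := factorial_le j hj1
  have hj0 : (1 : ℝ) ≤ j := by exact_mod_cast hj1
  have hd0 : 0 < a0 - 1 / 2 := by linarith
  have hexp : Real.exp (-(j : ℝ)) = 1 / Real.exp 1 ^ j := by
    rw [← Real.exp_nat_mul, mul_one, Real.exp_neg, one_div]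
  have hC : (j.factorial : ℝ) / (1 + t) ^ j ≤ 3 * Real.exp (-(j : ℝ)) * (j : ℝ) ^ j / (j + 2) := by
    have h1 : √(j : ℝ) ≤ j + 2 := by
      rw [Real.sqrt_le_left (by linarith)]
      nlinarith
    have h2 : Real.exp 1 ≤ 3 := by have := Real.exp_one_lt_d9; linarith
    rw [div_le_div_iff₀ (by positivity) (by positivity)]
    calc (j.factorial : ℝ) * (j + 2) ≤ (Real.exp 1 * √j * (j / Real.exp 1) ^ j) * (j + 2) := by
          gcongr
      _ ≤ (3 * (j + 2) * (j / Real.exp 1) ^ j) * (j + 2) := by gcongr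
      _ = 3 * Real.exp (-(j : ℝ)) * (j : ℝ) ^ j * (((j : ℝ) + 2) ^ 2) := by
          rw [hexp, div_pow]
          ring
      _ ≤ 3 * Real.exp (-(j : ℝ)) * (j : ℝ) ^ j * (1 + t) ^ j := by gcongr
  have hcard' : y / (j + 2) ≤ (P.card : ℝ) := by
    rw [div_le_iff₀ (by positivity)]
    refine hcard.trans ?_
    gcongr
  calc 1 / 4 * (4 : ℝ) ^ (-(2 * a0)) / ((a0 - 1 / 2) * (1 + t)) ^ j * j.factorial
      = 1 / 4 * (4 : ℝ) ^ (-(2 * a0)) / (a0 - 1 / 2) ^ j * (j.factorial / (1 + t) ^ j) := by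
        rw [mul_pow]
        field_simp
    _ ≤ 1 / 4 * (4 : ℝ) ^ (-(2 * a0)) / (a0 - 1 / 2) ^ j *
        (3 * Real.exp (-(j : ℝ)) * (j : ℝ) ^ j / (j + 2)) := by gcongr
    _ = 3 / 4 * (j / (a0 - 1 / 2)) ^ j *
        ((4 : ℝ) ^ (-(2 * a0)) * Real.exp (-(j : ℝ))) / (j + 2) := by
        rw [div_pow]
        ring
    _ = y / (j + 2) * (3 / 4 * (j / (a0 - 1 / 2)) ^ j * (4 * y) ^ (-(2 * a0))) := by
        rw [← hA]
        ring
    _ ≤ P.card * (3 / 4 * (j / (a0 - 1 / 2)) ^ j * (4 * y) ^ (-(2 * a0))) := by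
        have : 0 ≤ 3 / 4 * ((j : ℝ) / (a0 - 1 / 2)) ^ j * (4 * y) ^ (-(2 * a0)) := by positivity
        exact mul_le_mul_of_nonneg_right hcard' this

end Pool.Agent.T6.H66.UG
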