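import Mathlib

/-!
# Choice of the parameters
-/

set_option autoImplicit false

namespace Pool.Agent.T6.H66.UG

open Real

/-- the radii: `R = a0 - τ`, `r = a0 - 1 - τ`, the growth `(a0 - 1/2) (1 + τ / a0)` -/
lemma params (ε : ℝ) (hε : 0 < ε) : ∃ a0 τ q : ℝ, 1 < a0 ∧ 0 < τ ∧ 0 < a0 - 1 - τ ∧
    q = (a0 - 1 / 2) * (1 + τ / a0) ∧ q < a0 - τ ∧ a0 - 1 - τ < q ∧
    Real.log (q / (a0 - 1 - τ)) ≤ (1 + ε) * Real.log ((a0 - τ) / q) := by
  set τ := min ε 1 / 18 with hτ
  have hm0 : 0 < min ε 1 := lt_min hε one_pos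
  have hτ0 : 0 < τ := by positivity
  have hτε : 18 * τ ≤ ε := by rw [hτ]; linarith [min_le_left ε 1]
  have hτ1 : 18 * τ ≤ 1 := by rw [hτ]; linarith [min_le_right ε 1]
  set u := τ / 8 with hu
  have hu0 : 0 < u := by positivity
  have hu1 : u ≤ 1 / 144 := by rw [hu]; linarith
  refine ⟨1 / u, τ, (1 / u - 1 / 2) * (1 + τ / (1 / u)), ?_, hτ0, ?_, rfl, ?_, ?_, ?_⟩
  · rw [lt_div_iff₀ hu0]; linarith
  · have : 2 ≤ 1 / u := by rw [le_div_iff₀ hu0]; linarith
    linarith
  · have h1 : τ / (1 / u) = τ * u := by field_simp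
    rw [h1]
    have h2 : 1 / u * u = 1 := by field_simp
    nlinarith
  · have h1 : τ / (1 / u) = τ * u := by field_simp
    rw [h1]
    have h2 : 1 / u * u = 1 := by field_simp
    have h3 : 0 < 1 / u := by positivity
    nlinarith
  · have h1 : τ / (1 / u) = τ * u := by field_simp
    rw [h1]
    have e1 : (1 / u - 1 / 2) * (1 + τ * u) / (1 / u - 1 - τ) =
        (1 - u / 2) * (1 + τ * u) / (1 - (1 + τ) * u) := by
      have h5 : 1 / u - 1 - τ ≠ 0 := by
        have : 2 ≤ 1 / u := by rw [le_div_iff₀ hu0]; linarith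
        intro h; linarith
      have h6 : 1 - (1 + τ) * u ≠ 0 := by intro h; nlinarith
      field_simp
      ring
    have e2 : (1 / u - τ) / ((1 / u - 1 / 2) * (1 + τ * u)) =
        (1 - τ * u) / ((1 - u / 2) * (1 + τ * u)) := by
      have h5 : 1 / u - 1 / 2 ≠ 0 := by
        have : 2 ≤ 1 / u := by rw [le_div_iff₀ hu0]; linarith
        intro h; linarith
      have h6 : 1 - u / 2 ≠ 0 := by intro h; linarith
      field_simp
      try ring
    rw [e1, e2]
    have p1 : 0 < 1 - u / 2 := by linarith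
    have p2 : 0 < 1 + τ * u := by positivity
    have p3 : 0 < 1 - (1 + τ) * u := by nlinarith
    have p4 : 0 < 1 - τ * u := by nlinarith
    rw [Real.log_div (by positivity) p3.ne', Real.log_div p4.ne' (by positivity),
      Real.log_mul p1.ne' p2.ne']
    have l1 : Real.log (1 - u / 2) ≤ -(u / 2) := by
      have := Real.log_le_sub_one_of_pos p1
      linarith
    have l2 : Real.log (1 + τ * u) ≤ τ * u := by
      have := Real.log_le_sub_one_of_pos p2
      linarith
    have l3 : -Real.log (1 - (1 + τ) * u) ≤ (1 + τ) * u + τ * u := by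
      rw [← Real.log_inv]
      have h7 : (1 - (1 + τ) * u)⁻¹ ≤ 1 + ((1 + τ) * u + τ * u) := by
        have hx1 : (1 + τ) * u ≤ 1 / 2 := by nlinarith
        have hx2 : ((1 + τ) * u) ^ 2 ≤ u * (τ / 2) := by
          have : (1 + τ) ^ 2 * u ≤ τ / 2 := by
            have h9 : (1 + τ) ^ 2 ≤ 4 := by nlinarith
            have h10 : (1 + τ) ^ 2 * u ≤ 4 * u := mul_le_mul_of_nonneg_right h9 hu0.le
            rw [hu] at h10 ⊢
            linarith
          calc ((1 + τ) * u) ^ 2 = u * ((1 + τ) ^ 2 * u) := by ring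
            _ ≤ u * (τ / 2) := mul_le_mul_of_nonneg_left this hu0.le
        have hx3 : τ * u * (1 / 2) ≤ τ * u * (1 - (1 + τ) * u) :=
          mul_le_mul_of_nonneg_left (by linarith) (by positivity)
        rw [← mul_le_mul_iff_of_pos_right p3, inv_mul_cancel₀ p3.ne']
        have : (1 + ((1 + τ) * u + τ * u)) * (1 - (1 + τ) * u) =
          1 - ((1 + τ) * u) ^ 2 + τ * u * (1 - (1 + τ) * u) := by ring
        rw [this]
        linarith
      have h8 := Real.log_le_sub_one_of_pos (inv_pos.2 p3)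
      linarith
    have l4 : -Real.log (1 - τ * u) ≤ 2 * (τ * u) := by
      rw [← Real.log_inv]
      have h7 : (1 - τ * u)⁻¹ ≤ 1 + 2 * (τ * u) := by
        rw [← mul_le_mul_iff_of_pos_right p4, inv_mul_cancel₀ p4.ne']
        have h9 : τ * u ≤ 1 / 2 := by nlinarith
        have h10 : 0 < τ * u := by positivity
        nlinarith
      have h8 := Real.log_le_sub_one_of_pos (inv_pos.2 p4)
      linarith
    -- `log q₂ ≤ u (1/2 + 3 τ)`, `log q₁ ≥ u (1/2 - 3 τ)`
    have m1 : Real.log (1 - u / 2) + Real.log (1 + τ * u) - Real.log (1 - (1 + τ) * u) ≤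
        u * (1 / 2 + 3 * τ) := by nlinarith
    have m2 : u * (1 / 2 - 3 * τ) ≤
        Real.log (1 - τ * u) - (Real.log (1 - u / 2) + Real.log (1 + τ * u)) := by nlinarith
    refine m1.trans ?_
    have m3 : (1 + ε) * (u * (1 / 2 - 3 * τ)) ≤ (1 + ε) *
        (Real.log (1 - τ * u) - (Real.log (1 - u / 2) + Real.log (1 + τ * u))) :=
      mul_le_mul_of_nonneg_left m2 (by linarith)
    refine le_trans ?_ m3
    have m4 : 1 / 2 + 3 * τ ≤ (1 + ε) * (1 / 2 - 3 * τ) := by nlinarith
    calc u * (1 / 2 + 3 * τ) ≤ u * ((1 + ε) * (1 / 2 - 3 * τ)) :=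
          mul_le_mul_of_nonneg_left m4 hu0.le
      _ = _ := by ring

/-- optimization over `j` -/
lemma optimize (q R r κ c C : ℝ) (J : ℕ) (hr : 0 < r) (hrq : r < q) (hqR : q < R)
    (hκ : Real.log (q / r) ≤ κ * Real.log (R / q)) (hc : 0 < c) (hC : 0 < C) :
    ∃ c' : ℝ, 0 < c' ∧ ∀ X δ : ℝ, 1 ≤ X → 0 ≤ δ →
      (∀ j : ℕ, J ≤ j → c / q ^ j ≤ C * X / R ^ j + δ * (C / r ^ j)) → c' ≤ δ * X ^ κ := by
  have hq0 : 0 < q := hr.trans hrq
  have hR0 : 0 < R := hq0.trans hqR
  set K := 2 * C / c + 1 with hK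
  have hK1 : 1 ≤ K := by rw [hK]; have : 0 < 2 * C / c := by positivity
                         linarith
  have hlogR : 0 < Real.log (R / q) := Real.log_pos (by rw [lt_div_iff₀ hq0]; linarith)
  have hlogr : 0 < Real.log (q / r) := Real.log_pos (by rw [lt_div_iff₀ hr]; linarith)
  have hκ0 : 0 < κ := by
    by_contra h
    push Not at h
    have : κ * Real.log (R / q) ≤ 0 := mul_nonpos_of_nonpos_of_nonneg h hlogR.le
    linarith
  refine ⟨c / (2 * C * (q / r) ^ (J + 1) * K ^ κ), by positivity, fun X δ hX hδ h => ?_⟩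
  set m := ⌈Real.log (K * X) / Real.log (R / q)⌉₊ with hm
  have hKX : 1 ≤ K * X := one_le_mul_of_one_le_of_one_le hK1 hX
  have hKX0 : 0 < K * X := by linarith
  have h1 := h (J + m) (Nat.le_add_right _ _)
  -- the first term is small
  have h2 : K * X ≤ (R / q) ^ (J + m) := by
    have h3 : Real.log (K * X) ≤ m * Real.log (R / q) := by
      have := Nat.le_ceil (Real.log (K * X) / Real.log (R / q))
      rw [div_le_iff₀ hlogR] at this
      exact this
    have h4 : K * X ≤ (R / q) ^ m := by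
      rw [← Real.log_le_log_iff hKX0 (by positivity), Real.log_pow]
      exact h3
    refine h4.trans (pow_le_pow_right₀ ?_ (Nat.le_add_left _ _))
    rw [le_div_iff₀ hq0]; linarith
  have h5 : C * X / R ^ (J + m) ≤ c / 2 / q ^ (J + m) := by
    rw [div_pow, le_div_iff₀ (by positivity)] at h2
    rw [div_le_div_iff₀ (by positivity) (by positivity)]
    have h6 : 2 * C / c * X * q ^ (J + m) ≤ R ^ (J + m) := by
      refine le_trans ?_ h2
      rw [hK]
      have : 0 ≤ X * q ^ (J + m) := by positivity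
      nlinarith
    have h7 : c / 2 * (2 * C / c * X * q ^ (J + m)) = C * X * q ^ (J + m) := by
      field_simp
    rw [← h7]
    exact mul_le_mul_of_nonneg_left h6 (by positivity)
  have h8 : c / 2 ≤ δ * (C * (q / r) ^ (J + m)) := by
    have h9 : c / 2 / q ^ (J + m) ≤ δ * (C / r ^ (J + m)) := by
      have : c / q ^ (J + m) = c / 2 / q ^ (J + m) + c / 2 / q ^ (J + m) := by ring
      linarith
    rw [div_le_iff₀ (by positivity)] at h9
    refine h9.trans (le_of_eq ?_)
    rw [div_pow]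
    ring
  have h10 : (q / r) ^ m ≤ (q / r) * (K * X) ^ κ := by
    have h11 : (m : ℝ) ≤ Real.log (K * X) / Real.log (R / q) + 1 :=
      (Nat.ceil_lt_add_one (div_nonneg (Real.log_nonneg hKX) hlogR.le)).le
    rw [← Real.log_le_log_iff (by positivity) (by positivity), Real.log_pow,
      Real.log_mul (by positivity) (by positivity), Real.log_rpow hKX0]
    calc (m : ℝ) * Real.log (q / r) ≤
          (Real.log (K * X) / Real.log (R / q) + 1) * Real.log (q / r) := by gcongr
      _ = Real.log (q / r) + Real.log (K * X) / Real.log (R / q) * Real.log (q / r) := by ring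
      _ ≤ Real.log (q / r) + Real.log (K * X) / Real.log (R / q) * (κ * Real.log (R / q)) := by
          have : 0 ≤ Real.log (K * X) / Real.log (R / q) :=
            div_nonneg (Real.log_nonneg hKX) hlogR.le
          gcongr
      _ = Real.log (q / r) + κ * Real.log (K * X) := by
          field_simp
  rw [div_le_iff₀ (by positivity)]
  have h12 : δ * (C * (q / r) ^ (J + m)) ≤ δ * (C * ((q / r) ^ (J + 1) * (K * X) ^ κ)) := by
    have : (q / r) ^ (J + m) ≤ (q / r) ^ (J + 1) * (K * X) ^ κ := by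
      rw [pow_add, pow_succ, mul_assoc]
      exact mul_le_mul_of_nonneg_left h10 (by positivity)
    gcongr
  have h13 : (K * X) ^ κ = K ^ κ * X ^ κ := Real.mul_rpow (by linarith) (by linarith)
  rw [h13] at h12
  have h14 := h8.trans h12
  calc c = 2 * (c / 2) := by ring
    _ ≤ 2 * (δ * (C * ((q / r) ^ (J + 1) * (K ^ κ * X ^ κ)))) := by linarith
    _ = δ * X ^ κ * (2 * C * (q / r) ^ (J + 1) * K ^ κ) := by ring

end Pool.Agent.T6.H66.UG
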