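import Mathlib
import Pool.Agent.T6.H66.UG.Lower
import Pool.Agent.T6.H66.UG.Num

/-!
# Comparison of the Taylor coefficients
-/

set_option autoImplicit false

namespace Pool.Agent.T6.H66.UG

open Filter Topology Finset Metric
open scoped ComplexOrder

lemma iter_logMul (a : ℕ → ℂ) (j : ℕ) (n : ℕ) :
    (LSeries.logMul^[j] a) n = (Complex.log n) ^ j * a n := by
  induction j with
  | zero => simp
  | succ j ih =>
    rw [Function.iterate_succ_apply', LSeries.logMul, ih, pow_succ]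
    ring

/-- the Taylor coefficients of a Dirichlet series with nonnegative coefficients -/
lemma iter_norm (a : ℕ → ℂ) (ha : ∀ n, 0 ≤ a n) (a0 : ℝ) (ha0 : 0 < a0)
    (habs : LSeries.abscissaOfAbsConv a < a0) (j : ℕ) :
    (Summable fun n : ℕ => (a n).re * Real.log n ^ j * (n : ℝ) ^ (-a0)) ∧
    ‖iteratedDeriv j (LSeries a) (a0 : ℂ)‖ =
      ∑' n : ℕ, (a n).re * Real.log n ^ j * (n : ℝ) ^ (-a0) := by
  have hs : LSeries.abscissaOfAbsConv a < ((a0 : ℂ)).re := by simpa using habs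
  have habs' : LSeries.abscissaOfAbsConv (LSeries.logMul^[j] a) < ((a0 : ℂ)).re := by
    rwa [LSeries.absicssaOfAbsConv_logPowMul]
  have hS := LSeriesSummable_of_abscissaOfAbsConv_lt_re habs'
  have hterm : ∀ n : ℕ, LSeries.term (LSeries.logMul^[j] a) (a0 : ℂ) n =
      (((a n).re * Real.log n ^ j * (n : ℝ) ^ (-a0) : ℝ) : ℂ) := by
    intro n
    rcases eq_or_ne n 0 with h0 | h0
    · rw [h0]
      have : ((0 : ℕ) : ℝ) ^ (-a0) = 0 := by
        rw [Nat.cast_zero, Real.zero_rpow (by linarith)]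
      rw [this]
      simp
    rw [LSeries.term_of_ne_zero h0, iter_logMul]
    have hre : a n = ((a n).re : ℂ) := by
      have := (Complex.le_def.1 (ha n)).2
      apply Complex.ext
      · simp
      · simp at this ⊢
        exact this.symm
    have hn : (0 : ℝ) < n := by exact_mod_cast Nat.pos_of_ne_zero h0
    rw [← Complex.natCast_log, div_eq_mul_inv, ← Complex.cpow_neg]
    conv_lhs => rw [hre]
    push_cast
    rw [← Complex.ofReal_natCast, Complex.ofReal_cpow hn.le]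
    push_cast
    ring
  have hsum : Summable fun n : ℕ => (((a n).re * Real.log n ^ j * (n : ℝ) ^ (-a0) : ℝ) : ℂ) := by
    have : Summable (LSeries.term (LSeries.logMul^[j] a) (a0 : ℂ)) := hS
    exact this.congr hterm
  refine ⟨Complex.summable_ofReal.1 hsum, ?_⟩
  rw [LSeries_iteratedDeriv j hs, norm_mul, norm_pow, norm_neg, norm_one, one_pow, one_mul]
  have : LSeries (LSeries.logMul^[j] a) (a0 : ℂ) =
      ((∑' n : ℕ, (a n).re * Real.log n ^ j * (n : ℝ) ^ (-a0) : ℝ) : ℂ) := by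
    rw [Complex.ofReal_tsum]
    exact tsum_congr hterm
  rw [this, Complex.norm_real, Real.norm_of_nonneg]
  refine tsum_nonneg fun n => ?_
  have h1 := (Complex.le_def.1 (ha n)).1
  have h2 : 0 ≤ Real.log (n : ℝ) := Real.log_natCast_nonneg n
  have h3 : 0 ≤ (a n).re := by simpa using h1
  positivity

/-- comparison -/
lemma core (ε : ℝ) (hε : 0 < ε) : ∃ a0 τ : ℝ, 1 < a0 ∧ 0 < τ ∧ 0 < a0 - 1 - τ ∧
    ∀ (Ca Cb : ℝ), 0 < Ca → 0 < Cb → ∃ c' : ℝ, 0 < c' ∧
    ∀ (a : ℕ → ℂ) (Ka Kb : ℂ → ℂ) (X δ : ℝ), 1 ≤ X → 0 ≤ δ → (∀ n, 0 ≤ a n) →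
      (∀ p : ℕ, p.Prime → 3 / 4 ≤ (a (p ^ 2)).re) →
      LSeries.abscissaOfAbsConv a < a0 →
      (∀ s : ℂ, 1 < s.re → LSeries a s = Ka s + δ * Kb s) →
      (∀ s : ℂ, 0 < s.re → DifferentiableAt ℂ Ka s) →
      (∀ s : ℂ, 1 < s.re → DifferentiableAt ℂ Kb s) →
      (∀ s : ℂ, ‖s - a0‖ = a0 - τ → ‖Ka s‖ ≤ Ca * X) →
      (∀ s : ℂ, ‖s - a0‖ = a0 - 1 - τ → ‖Kb s‖ ≤ Cb) →
      c' ≤ δ * X ^ (1 + ε) := by
  obtain ⟨a0, τ, q, ha0, hτ, hr, hq, hqR, hrq, hlog⟩ := params ε hε
  refine ⟨a0, τ, ha0, hτ, hr, fun Ca Cb hCa hCb => ?_⟩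
  obtain ⟨c, hc, J, hJ⟩ := lower a0 ha0 (τ / a0) (by positivity)
  obtain ⟨c', hc', hopt⟩ := optimize q (a0 - τ) (a0 - 1 - τ) (1 + ε) c (max Ca Cb) J hr hrq hqR
    hlog hc (lt_max_of_lt_left hCa)
  refine ⟨c', hc', fun a Ka Kb X δ hX hδ ha hap habs hdec hKa hKb hba hbb => ?_⟩
  refine hopt X δ hX hδ fun j hj => ?_
  obtain ⟨hsum, hnorm⟩ := iter_norm a ha a0 (by linarith) habs j
  have hlow := hJ j hj (fun n => (a n).re) (fun n => by simpa using (Complex.le_def.1 (ha n)).1)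
    hap hsum
  rw [← hnorm, ← hq] at hlow
  have hfac : (0 : ℝ) < j.factorial := by exact_mod_cast Nat.factorial_pos j
  -- the derivative of the sum
  have hopen : ∀ᶠ s : ℂ in 𝓝 (a0 : ℂ), 1 < s.re := by
    have : IsOpen {s : ℂ | 1 < s.re} := isOpen_lt continuous_const Complex.continuous_re
    exact this.mem_nhds (by simpa using ha0)
  have hHeq : LSeries a =ᶠ[𝓝 (a0 : ℂ)] (Ka + fun s => (δ : ℂ) * Kb s) := by
    filter_upwards [hopen] with s hs
    rw [hdec s hs]
    rfl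
  have hKa' : ContDiffAt ℂ j Ka (a0 : ℂ) := by
    have hon : DifferentiableOn ℂ Ka {s : ℂ | 0 < s.re} := fun s hs =>
      (hKa s hs).differentiableWithinAt
    have hop : IsOpen {s : ℂ | 0 < s.re} := isOpen_lt continuous_const Complex.continuous_re
    exact (hon.contDiffOn (n := j) hop).contDiffAt (hop.mem_nhds (by simp; linarith))
  have hKb' : ContDiffAt ℂ j Kb (a0 : ℂ) := by
    have hon : DifferentiableOn ℂ Kb {s : ℂ | 1 < s.re} := fun s hs =>
      (hKb s hs).differentiableWithinAt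
    have hop : IsOpen {s : ℂ | 1 < s.re} := isOpen_lt continuous_const Complex.continuous_re
    exact (hon.contDiffOn (n := j) hop).contDiffAt (hop.mem_nhds (by simpa using ha0))
  have hder : iteratedDeriv j (LSeries a) (a0 : ℂ) =
      iteratedDeriv j Ka (a0 : ℂ) + δ * iteratedDeriv j Kb (a0 : ℂ) := by
    rw [hHeq.iteratedDeriv_eq j, iteratedDeriv_add hKa' (contDiffAt_const.mul hKb'),
      iteratedDeriv_const_mul_field]
  -- Cauchy
  have hreball : ∀ (s : ℂ) (ρ : ℝ), ‖s - a0‖ ≤ ρ → a0 - ρ ≤ s.re := by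
    intro s ρ h
    have h1 := (Complex.abs_re_le_norm (s - a0)).trans h
    have h2 := (abs_le.1 h1).1
    simp at h2
    linarith
  have hKa1 : ‖iteratedDeriv j Ka (a0 : ℂ)‖ ≤ j.factorial * (Ca * X) / (a0 - τ) ^ j := by
    refine Complex.norm_iteratedDeriv_le_of_forall_mem_sphere_norm_le j (by linarith) ?_ ?_
    · refine DifferentiableOn.diffContOnCl fun s hs => ?_
      have h1 : s ∈ closedBall (a0 : ℂ) (a0 - τ) := closure_ball_subset_closedBall hs
      rw [mem_closedBall, dist_eq_norm] at h1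
      have h2 := hreball s _ h1
      exact (hKa s (by linarith)).differentiableWithinAt
    · intro s hs
      rw [mem_sphere, dist_eq_norm] at hs
      exact hba s hs
  have hKb1 : ‖iteratedDeriv j Kb (a0 : ℂ)‖ ≤ j.factorial * Cb / (a0 - 1 - τ) ^ j := by
    refine Complex.norm_iteratedDeriv_le_of_forall_mem_sphere_norm_le j hr ?_ ?_
    · refine DifferentiableOn.diffContOnCl fun s hs => ?_
      have h1 : s ∈ closedBall (a0 : ℂ) (a0 - 1 - τ) := closure_ball_subset_closedBall hs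
      rw [mem_closedBall, dist_eq_norm] at h1
      have h2 := hreball s _ h1
      exact (hKb s (by linarith)).differentiableWithinAt
    · intro s hs
      rw [mem_sphere, dist_eq_norm] at hs
      exact hbb s hs
  have hfin : c / q ^ j * j.factorial ≤
      j.factorial * (Ca * X) / (a0 - τ) ^ j + δ * (j.factorial * Cb / (a0 - 1 - τ) ^ j) := by
    refine hlow.trans ?_
    rw [hder]
    refine (norm_add_le _ _).trans ?_
    rw [norm_mul, Complex.norm_real, Real.norm_of_nonneg hδ]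
    gcongr
  have hR : 0 < a0 - τ := by linarith
  have h5 : c / q ^ j ≤ Ca * X / (a0 - τ) ^ j + δ * (Cb / (a0 - 1 - τ) ^ j) := by
    rw [← mul_le_mul_iff_of_pos_right hfac]
    refine hfin.trans (le_of_eq ?_)
    ring
  refine h5.trans ?_
  have hX0 : 0 ≤ X := by linarith
  gcongr
  · exact le_max_left _ _
  · exact le_max_right _ _

end Pool.Agent.T6.H66.UG
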