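import Mathlib
import Pool.Agent.T6.H66.UG.Core
import Pool.Agent.T6.H66.UG.An
import Pool.Agent.T6.H66.UG.Coef
import Pool.Agent.H232R3.CMOFinal

/-!
# The uniform gap
-/

set_option autoImplicit false

namespace Pool.Agent.T6.H66.UG

open Filter Topology Metric ArithmeticFunction
open scoped ComplexOrder ComplexConjugate
open Pool.H232R3

/-- `(s - 1) ζ(s)` -/
noncomputable def EE : ℂ → ℂ := Function.update (fun s => (s - 1) * riemannZeta s) 1 1

lemma EE_eq (s : ℂ) (hs : s ≠ 1) : EE s = (s - 1) * riemannZeta s := by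
  unfold EE
  rw [Function.update_of_ne hs]

lemma EE_diff (s : ℂ) : DifferentiableAt ℂ EE s := by
  have h1 : ∀ z : ℂ, z ≠ 1 → DifferentiableAt ℂ EE z := by
    intro z hz
    have h2 : DifferentiableAt ℂ (fun s => (s - 1) * riemannZeta s) z :=
      (differentiableAt_id.sub_const 1).mul (differentiableAt_riemannZeta hz)
    refine h2.congr_of_eventuallyEq ?_
    filter_upwards [isOpen_ne.mem_nhds hz] with w hw
    exact EE_eq w hw
  rcases eq_or_ne s 1 with h | h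
  · rw [h]
    refine (Complex.analyticAt_of_differentiable_on_punctured_nhds_of_continuousAt ?_
      ?_).differentiableAt
    · filter_upwards [self_mem_nhdsWithin] with z hz
      exact h1 z hz
    · unfold EE
      rw [continuousAt_update_same]
      exact riemannZeta_residue_one
  · exact h1 s h

lemma bound_EE (a0 ρ : ℝ) : ∃ C : ℝ, 1 ≤ C ∧ ∀ s : ℂ, ‖s - a0‖ ≤ ρ → ‖EE s‖ ≤ C := by
  have hc : Continuous EE := by
    rw [continuous_iff_continuousAt]
    exact fun s => (EE_diff s).continuousAt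
  obtain ⟨C, hC⟩ := (isCompact_closedBall (a0 : ℂ) ρ).exists_bound_of_continuousOn hc.continuousOn
  exact ⟨max C 1, le_max_right _ _, fun s hs => (hC s (by
    rw [mem_closedBall, dist_eq_norm]; exact hs)).trans (le_max_left _ _)⟩

lemma re_ge (a0 ρ : ℝ) (s : ℂ) (h : ‖s - a0‖ ≤ ρ) : a0 - ρ ≤ s.re := by
  have h1 := (Complex.abs_re_le_norm (s - a0)).trans h
  have h2 := (abs_le.1 h1).1
  simp at h2
  linarith

lemma bound_zeta (a0 ρ : ℝ) (h : 1 < a0 - ρ) :
    ∃ C : ℝ, 1 ≤ C ∧ ∀ s : ℂ, ‖s - a0‖ ≤ ρ → ‖riemannZeta s‖ ≤ C := by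
  have hc : ContinuousOn riemannZeta (closedBall (a0 : ℂ) ρ) := by
    intro s hs
    rw [mem_closedBall, dist_eq_norm] at hs
    have := re_ge a0 ρ s hs
    refine (differentiableAt_riemannZeta ?_).continuousAt.continuousWithinAt
    rintro rfl
    simp at this
    linarith
  obtain ⟨C, hC⟩ := (isCompact_closedBall (a0 : ℂ) ρ).exists_bound_of_continuousOn hc
  exact ⟨max C 1, le_max_right _ _, fun s hs => (hC s (by
    rw [mem_closedBall, dist_eq_norm]; exact hs)).trans (le_max_left _ _)⟩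

lemma L_mul (u v : ArithmeticFunction ℂ) (s : ℂ) (hu : LSeriesSummable (fun n => u n) s)
    (hv : LSeriesSummable (fun n => v n) s) :
    LSeriesSummable (fun n => (u * v) n) s ∧
      LSeries (fun n => (u * v) n) s = LSeries (fun n => u n) s * LSeries (fun n => v n) s := by
  have h1 := LSeriesSummable.convolution hu hv
  have h2 := LSeries_convolution' hu hv
  have h3 : LSeries.convolution (fun n => u n) (fun n => v n) = fun n => (u * v) n :=
    ArithmeticFunction.coe_mul u v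
  rw [h3] at h1 h2
  exact ⟨h1, h2⟩

lemma one'_L (s : ℂ) (hs : 1 < s.re) : LSeriesSummable (fun n => one' n) s ∧
    LSeries (fun n => one' n) s = riemannZeta s := by
  have h : LSeriesHasSum (fun n => one' n) s (riemannZeta s) := by
    have h0 := LSeriesHasSum_one hs
    unfold LSeriesHasSum at h0 ⊢
    have e : LSeries.term (fun n => one' n) s = LSeries.term 1 s := by
      funext n
      rcases eq_or_ne n 0 with hn | hn
      · rw [hn, LSeries.term_zero, LSeries.term_zero]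
      · rw [LSeries.term_of_ne_zero hn, LSeries.term_of_ne_zero hn, one'_apply n hn, Pi.one_apply]
    rw [e]
    exact h0
  exact ⟨h.LSeriesSummable, h.LSeries_eq⟩

lemma absc (a : ℕ → ℂ) (a0 : ℝ) (ha0 : 1 < a0)
    (h : ∀ s : ℂ, 1 < s.re → LSeriesSummable a s) : LSeries.abscissaOfAbsConv a < a0 := by
  have h1 : LSeries.abscissaOfAbsConv a ≤ (1 : ℝ) :=
    LSeries.abscissaOfAbsConv_le_of_forall_lt_LSeriesSummable fun y hy => h y (by simpa using hy)
  refine lt_of_le_of_lt h1 ?_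
  exact_mod_cast ha0

/-- the shifted Mellin transform -/
noncomputable def PP (f : ArithmeticFunction ℂ) (θ : ℝ) (s : ℂ) : ℂ := Phi (fun n => f n) (s - θ)

section
variable {f : ArithmeticFunction ℂ} {A θ : ℝ}

lemma PP_diff (hθ : 0 < θ) (hθ1 : θ < 1) (hA : 0 ≤ A)
    (hd : Dec (fun n => f n) A θ) (s : ℂ) (hs : 0 < s.re) : DifferentiableAt ℂ (PP f θ) s := by
  have h1 : DifferentiableAt ℂ (Phi (fun n => f n)) (s - θ) :=
    phi_diff hθ hθ1 hA hd _ (by simp; exact hs)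
  exact h1.comp s (differentiableAt_id.sub_const _)

lemma PP_large (hθ : 0 < θ) (hθ1 : θ < 1) (hA : 0 ≤ A)
    (hd : Dec (fun n => f n) A θ) (τ : ℝ) (hτ : 0 < τ) (s : ℂ) (hs : τ ≤ s.re) :
    ‖PP f θ s‖ ≤ 2 / τ * A := by
  have h1 := phi_bound hθ hθ1 hA hd (s - θ) (by simp; linarith)
  have h2 : (s - θ).re + θ = s.re := by simp
  rw [h2] at h1
  refine h1.trans ?_
  calc 2 * A / s.re ≤ 2 * A / τ := by gcongr
    _ = 2 / τ * A := by ring

lemma PP_small (h1 : f 1 = 1) (hf : ∀ m n, f (m * n) = f m * f n) (hθ : 0 < θ) (hθ1 : θ < 1)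
    (hd : Dec (fun n => f n) A θ) (τ : ℝ) (hτ : 0 < τ) (s : ℂ) (hs : 1 + τ ≤ s.re) :
    ‖PP f θ s‖ ≤ (∑' n : ℕ, ((n : ℝ) ^ (1 + τ))⁻¹) / τ := by
  have h2 := tw_LSeries f h1 hf hθ hθ1 hd s (by linarith)
  have h3 := LSeries_le (fun n => tw f θ n) (fun n => tw_le f h1 hf hθ hθ1 hd n) (1 + τ)
    (by linarith) s hs
  rw [h2, norm_mul] at h3
  have h4 : τ ≤ ‖s - θ‖ := by
    have := Complex.re_le_norm (s - θ)
    simp at this
    linarith
  rw [le_div_iff₀ hτ]
  calc ‖PP f θ s‖ * τ ≤ ‖PP f θ s‖ * ‖s - θ‖ := by gcongr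
    _ = ‖s - θ‖ * ‖Phi (fun n => f n) (s - θ)‖ := by rw [mul_comm]; rfl
    _ ≤ _ := h3

end

lemma dec_cj (f : ArithmeticFunction ℂ) (A θ : ℝ) (hd : Dec (fun n => f n) A θ) :
    Dec (fun n => cj f n) A θ := by
  intro N hN
  rw [SS_cj, RCLike.norm_conj]
  exact hd N hN

lemma tw_cj (f : ArithmeticFunction ℂ) (θ : ℝ) : tw (cj f) θ = cj (tw f θ) := by
  ext n
  rw [tw_apply, cj_apply, cj_apply, tw_apply, map_mul, Complex.conj_ofReal]

lemma gap_real (ε : ℝ) (hε : 0 < ε) : ∃ c : ℝ, 0 < c ∧ ∀ (f : ArithmeticFunction ℂ) (A θ : ℝ),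
    f 1 = 1 → (∀ m n, f (m * n) = f m * f n) → (∀ n, (f n).im = 0) → 0 < θ → θ < 1 →
    Dec (fun n => f n) A θ → c ≤ (1 - θ) * A ^ (1 + ε) := by
  obtain ⟨a0, τ, ha0, hτ, hr, hcore⟩ := core ε hε
  obtain ⟨CE, hCE1, hCE⟩ := bound_EE a0 (a0 - τ)
  obtain ⟨Cz, hCz1, hCz⟩ := bound_zeta a0 (a0 - 1 - τ) (by linarith)
  set Z := ∑' n : ℕ, ((n : ℝ) ^ (1 + τ))⁻¹ with hZ
  have hsumZ : Summable fun n : ℕ => ((n : ℝ) ^ (1 + τ))⁻¹ :=
    Real.summable_nat_rpow_inv.2 (by linarith)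
  have hZ0 : 0 < Z := by
    refine hsumZ.tsum_pos (fun n => by positivity) 1 (by simp)
  obtain ⟨c', hc', h⟩ := hcore (CE * (2 / τ)) (Cz * (Z / τ)) (by positivity) (by positivity)
  refine ⟨c', hc', fun f A θ h1 hf hre hθ hθ1 hd => ?_⟩
  have hA : 1 ≤ A := by
    have := dec_A _ _ _ hd
    simpa [h1] using this
  have hA0 : 0 ≤ A := by linarith
  set g := tw f θ with hg
  have g1 : g 1 = 1 := tw_one f h1 θ
  have gm : ∀ m n, g (m * n) = g m * g n := tw_mul f hf θ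
  have gb : ∀ n, ‖g n‖ ≤ 1 := tw_le f h1 hf hθ hθ1 hd
  have gr : ∀ n, (g n).im = 0 := fun n => by rw [hg, tw_apply]; simp [hre n]
  have hL : ∀ s : ℂ, 1 < s.re → LSeriesSummable (fun n => (one' * g) n) s ∧
      LSeries (fun n => (one' * g) n) s = riemannZeta s * ((s - θ) * PP f θ s) := by
    intro s hs
    obtain ⟨e1, e2⟩ := one'_L s hs
    obtain ⟨e3, e4⟩ := L_mul one' g s e1 (tw_summable f h1 hf hθ hθ1 hd s hs)
    refine ⟨e3, ?_⟩
    rw [e4, e2, tw_LSeries f h1 hf hθ hθ1 hd s hs]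
    rfl
  refine h (fun n => (one' * g) n) (fun s => EE s * PP f θ s)
    (fun s => riemannZeta s * PP f θ s) A (1 - θ) hA (by linarith)
    (real_nonneg g g1 gm gb gr) (fun p hp => real_sq g g1 gm gr p hp)
    (absc _ a0 ha0 fun s hs => (hL s hs).1) ?_ ?_ ?_ ?_ ?_
  · intro s hs
    have hs1 : s ≠ 1 := by rintro rfl; simp at hs
    rw [(hL s hs).2, EE_eq s hs1]
    push_cast
    ring
  · intro s hs
    exact (EE_diff s).mul (PP_diff hθ hθ1 hA0 hd s hs)
  · intro s hs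
    have hs1 : s ≠ 1 := by rintro rfl; simp at hs
    exact (differentiableAt_riemannZeta hs1).mul (PP_diff hθ hθ1 hA0 hd s (by linarith))
  · intro s hs
    have h2 := re_ge a0 _ s hs.le
    rw [norm_mul]
    calc ‖EE s‖ * ‖PP f θ s‖ ≤ CE * (2 / τ * A) := by
          refine mul_le_mul (hCE s hs.le) (PP_large hθ hθ1 hA0 hd τ hτ s (by linarith))
            (norm_nonneg _) (by linarith)
      _ = CE * (2 / τ) * A := by ring
  · intro s hs
    have h2 := re_ge a0 _ s hs.le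
    rw [norm_mul]
    exact mul_le_mul (hCz s hs.le) (PP_small h1 hf hθ hθ1 hd τ hτ s (by linarith))
      (norm_nonneg _) (by linarith)

lemma gap_cplx (ε : ℝ) (hε : 0 < ε) : ∃ c : ℝ, 0 < c ∧ ∀ (f : ArithmeticFunction ℂ) (A θ : ℝ),
    f 1 = 1 → (∀ m n, f (m * n) = f m * f n) → 0 < θ → θ < 1 →
    Dec (fun n => f n) A θ → c ≤ (1 - θ) * A ^ (2 + ε) := by
  obtain ⟨a0, τ, ha0, hτ, hr, hcore⟩ := core (ε / 2) (by positivity)
  obtain ⟨CE, hCE1, hCE⟩ := bound_EE a0 (a0 - τ)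
  obtain ⟨Cz, hCz1, hCz⟩ := bound_zeta a0 (a0 - 1 - τ) (by linarith)
  set Z := ∑' n : ℕ, ((n : ℝ) ^ (1 + τ))⁻¹ with hZ
  have hsumZ : Summable fun n : ℕ => ((n : ℝ) ^ (1 + τ))⁻¹ :=
    Real.summable_nat_rpow_inv.2 (by linarith)
  have hZ0 : 0 < Z := by
    refine hsumZ.tsum_pos (fun n => by positivity) 1 (by simp)
  obtain ⟨c', hc', h⟩ := hcore (CE ^ 2 * (2 / τ) ^ 2) ((2 * CE * Cz + Cz ^ 2) * (Z / τ) ^ 2)
    (by positivity) (by positivity)
  refine ⟨c', hc', fun f A θ h1 hf hθ hθ1 hd => ?_⟩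
  have hA : 1 ≤ A := by
    have := dec_A _ _ _ hd
    simpa [h1] using this
  have hA0 : 0 ≤ A := by linarith
  set g := tw f θ with hg
  have g1 : g 1 = 1 := tw_one f h1 θ
  have gm : ∀ m n, g (m * n) = g m * g n := tw_mul f hf θ
  have gb : ∀ n, ‖g n‖ ≤ 1 := tw_le f h1 hf hθ hθ1 hd
  -- the conjugate
  have c1 : cj f 1 = 1 := by rw [cj_apply, h1, map_one]
  have cm : ∀ m n, cj f (m * n) = cj f m * cj f n := by
    intro m n; simp only [cj_apply, hf, map_mul]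
  have cd := dec_cj f A θ hd
  have hL : ∀ s : ℂ, 1 < s.re → LSeriesSummable (fun n => (one' * one' * (g * cj g)) n) s ∧
      LSeries (fun n => (one' * one' * (g * cj g)) n) s =
        (riemannZeta s * riemannZeta s) *
          (((s - θ) * PP f θ s) * ((s - θ) * PP (cj f) θ s)) := by
    intro s hs
    obtain ⟨e1, e2⟩ := one'_L s hs
    obtain ⟨e3, e4⟩ := L_mul one' one' s e1 e1
    have e5 : LSeriesSummable (fun n => cj g n) s := by
      rw [hg, ← tw_cj]
      exact tw_summable (cj f) c1 cm hθ hθ1 cd s hs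
    obtain ⟨e6, e7⟩ := L_mul g (cj g) s (tw_summable f h1 hf hθ hθ1 hd s hs) e5
    obtain ⟨e8, e9⟩ := L_mul (one' * one') (g * cj g) s e3 e6
    refine ⟨e8, ?_⟩
    rw [e9, e4, e2, e7, tw_LSeries f h1 hf hθ hθ1 hd s hs]
    have e10 : LSeries (fun n => cj g n) s = (s - θ) * PP (cj f) θ s := by
      rw [hg, ← tw_cj]
      exact tw_LSeries (cj f) c1 cm hθ hθ1 cd s hs
    rw [e10]
    rfl
  have hX : A ^ (2 + ε) = (A ^ 2) ^ (1 + ε / 2) := by
    rw [← Real.rpow_natCast, ← Real.rpow_mul hA0]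
    congr 1
    push_cast
    ring
  rw [hX]
  refine h (fun n => (one' * one' * (g * cj g)) n) (fun s => EE s ^ 2 * (PP f θ s * PP (cj f) θ s))
    (fun s => (2 * EE s * riemannZeta s + (1 - θ : ℝ) * riemannZeta s ^ 2) *
      (PP f θ s * PP (cj f) θ s)) (A ^ 2) (1 - θ) (one_le_pow₀ hA) (by linarith)
    (cplx_nonneg g g1 gm gb) (fun p hp => cplx_sq g g1 gm gb p hp)
    (absc _ a0 ha0 fun s hs => (hL s hs).1) ?_ ?_ ?_ ?_ ?_
  · intro s hs
    have hs1 : s ≠ 1 := by rintro rfl; simp at hs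
    rw [(hL s hs).2, EE_eq s hs1]
    push_cast
    ring
  · intro s hs
    exact ((EE_diff s).pow 2).mul ((PP_diff hθ hθ1 hA0 hd s hs).mul
      (PP_diff hθ hθ1 hA0 cd s hs))
  · intro s hs
    have hs1 : s ≠ 1 := by rintro rfl; simp at hs
    have hz := differentiableAt_riemannZeta hs1
    exact ((((EE_diff s).const_mul 2).mul hz).add ((hz.pow 2).const_mul _)).mul
      ((PP_diff hθ hθ1 hA0 hd s (by linarith)).mul (PP_diff hθ hθ1 hA0 cd s (by linarith)))
  · intro s hs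
    have h2 := re_ge a0 _ s hs.le
    have b1 := PP_large hθ hθ1 hA0 hd τ hτ s (by linarith)
    have b2 := PP_large hθ hθ1 hA0 cd τ hτ s (by linarith)
    have b3 := hCE s hs.le
    rw [norm_mul, norm_mul, norm_pow]
    calc ‖EE s‖ ^ 2 * (‖PP f θ s‖ * ‖PP (cj f) θ s‖)
        ≤ CE ^ 2 * ((2 / τ * A) * (2 / τ * A)) := by gcongr
      _ = CE ^ 2 * (2 / τ) ^ 2 * A ^ 2 := by ring
  · intro s hs
    have h2 := re_ge a0 _ s hs.le
    have b1 := PP_small h1 hf hθ hθ1 hd τ hτ s (by linarith)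
    have b2 := PP_small c1 cm hθ hθ1 cd τ hτ s (by linarith)
    have b3 := hCE s (by linarith)
    have b4 := hCz s hs.le
    rw [norm_mul, norm_mul]
    have b5 : ‖2 * EE s * riemannZeta s + (1 - θ : ℝ) * riemannZeta s ^ 2‖ ≤
        2 * CE * Cz + Cz ^ 2 := by
      refine (norm_add_le _ _).trans ?_
      rw [norm_mul, norm_mul, norm_mul, norm_pow, Complex.norm_real,
        Real.norm_of_nonneg (by linarith)]
      have : ‖(2 : ℂ)‖ = 2 := by simp
      rw [this]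
      have b6 : (1 - θ) * ‖riemannZeta s‖ ^ 2 ≤ 1 * Cz ^ 2 := by
        refine mul_le_mul (by linarith) ?_ (by positivity) (by norm_num)
        gcongr
      have b7 : 2 * ‖EE s‖ * ‖riemannZeta s‖ ≤ 2 * CE * Cz := by gcongr
      linarith
    calc ‖2 * EE s * riemannZeta s + (1 - θ : ℝ) * riemannZeta s ^ 2‖ *
          (‖PP f θ s‖ * ‖PP (cj f) θ s‖)
        ≤ (2 * CE * Cz + Cz ^ 2) * ((Z / τ) * (Z / τ)) := by gcongr
      _ = (2 * CE * Cz + Cz ^ 2) * (Z / τ) ^ 2 := by ring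

end Pool.Agent.T6.H66.UG
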