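import Mathlib
import Pool.Agent.T6.H66.UG.Main

/-!
# All exponents, and the zero-free region
-/

set_option autoImplicit false

namespace Pool.Agent.T6.H66.UG

open Filter Topology MeasureTheory ArithmeticFunction
open Pool.H232R3

lemma extend (f : ArithmeticFunction ℂ) (A θ c X : ℝ) (hc : 0 < c) (hA : 0 ≤ A)
    (h : ∀ θ', 0 < θ' → θ' < 1 → Dec (fun n => f n) A θ' → c ≤ (1 - θ') * X) (hθ : 0 < θ)
    (hd : Dec (fun n => f n) A θ) : c ≤ (1 - θ) * X := by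
  rcases lt_or_ge θ 1 with h1 | h1
  · exact h θ hθ h1 hd
  · exfalso
    have h2 : ∀ t, 0 < t → t < 1 → c ≤ t * X := by
      intro t ht ht1
      have := h (1 - t) (by linarith) (by linarith) (by
        intro N hN
        refine (hd N hN).trans ?_
        have hN' : (1 : ℝ) ≤ N := by exact_mod_cast hN
        exact mul_le_mul_of_nonneg_left
          (Real.rpow_le_rpow_of_exponent_le hN' (by linarith)) hA)
      simpa using this
    have h3 := h2 (1 / 2) (by norm_num) (by norm_num)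
    have hX : 0 < X := by nlinarith
    have h4 := h2 (min (1 / 2) (c / (2 * X))) (by positivity)
      (lt_of_le_of_lt (min_le_left _ _) (by norm_num))
    have h5 : min (1 / 2) (c / (2 * X)) * X ≤ c / (2 * X) * X :=
      mul_le_mul_of_nonneg_right (min_le_right _ _) hX.le
    have h6 : c / (2 * X) * X = c / 2 := by field_simp
    linarith

/-- partial summation -/
lemma tail_bound (f : ℕ → ℂ) (B σ : ℝ) (hσ : 0 ≤ σ)
    (hB : ∀ N : ℕ, 1 ≤ N → ‖∑ n ∈ Finset.Icc 1 N, f n‖ ≤ B * (N : ℝ) ^ σ)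
    (ρ : ℂ) (hρ : σ < ρ.re) (N M : ℕ) (hN : 1 ≤ N) (hNM : N ≤ M) :
    ‖∑ n ∈ Finset.Ioc N M, f n * (n : ℂ) ^ (-ρ)‖ ≤
      B * (M : ℝ) ^ (-(ρ.re - σ)) + B * (1 + ‖ρ‖ / (ρ.re - σ)) * (N : ℝ) ^ (-(ρ.re - σ)) := by
  set δ := ρ.re - σ with hδ
  have hδ0 : 0 < δ := by linarith
  have hN0 : (0 : ℝ) < N := by exact_mod_cast hN
  have hM0 : (0 : ℝ) < M := by exact_mod_cast (lt_of_lt_of_le hN hNM)
  have hNM' : (N : ℝ) ≤ M := by exact_mod_cast hNM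
  have hB0 : 0 ≤ B := by
    have := hB 1 le_rfl
    simp at this
    exact (norm_nonneg _).trans this
  have hρ0 : ρ ≠ 0 := by
    rintro rfl
    simp at hρ
    linarith
  set c : ℕ → ℂ := fun n => if n = 0 then 0 else f n with hcdef
  have hcs : ∀ K : ℕ, ∑ k ∈ Finset.Icc 0 K, c k = ∑ n ∈ Finset.Icc 1 K, f n := by
    intro K
    rw [← Finset.sum_subset (s₁ := Finset.Icc 1 K) (s₂ := Finset.Icc 0 K) (f := c)]
    · refine Finset.sum_congr rfl fun n hn => ?_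
      rw [Finset.mem_Icc] at hn
      simp only [hcdef]
      rw [if_neg (by omega)]
    · intro n hn
      rw [Finset.mem_Icc] at hn ⊢
      omega
    · intro n hn hn'
      rw [Finset.mem_Icc] at hn hn'
      simp only [hcdef]
      rw [if_pos (by omega)]
  have hdiff : ∀ t ∈ Set.Icc (N : ℝ) M, HasDerivAt (fun t : ℝ => (t : ℂ) ^ (-ρ))
      (-ρ * (t : ℂ) ^ (-ρ - 1)) t := by
    intro t ht
    have ht0 : t ≠ 0 := (lt_of_lt_of_le hN0 ht.1).ne'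
    have := hasDerivAt_ofReal_cpow_const ht0 (r := -ρ) (by
      intro h
      exact hρ0 (by simpa using h))
    exact this
  have hcontd : ContinuousOn (fun t : ℝ => -ρ * (t : ℂ) ^ (-ρ - 1)) (Set.Icc (N : ℝ) M) := by
    refine continuousOn_const.mul ?_
    intro t ht
    have ht0 : 0 < t := lt_of_lt_of_le hN0 ht.1
    refine ContinuousAt.continuousWithinAt ?_
    exact (Complex.continuousAt_ofReal_cpow_const t (-ρ - 1) (Or.inr ht0.ne'))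
  have hder : ∀ t ∈ Set.Icc (N : ℝ) M, deriv (fun t : ℝ => (t : ℂ) ^ (-ρ)) t =
      -ρ * (t : ℂ) ^ (-ρ - 1) := fun t ht => (hdiff t ht).deriv
  have hint : IntegrableOn (deriv fun t : ℝ => (t : ℂ) ^ (-ρ)) (Set.Icc (N : ℝ) M) := by
    refine (IntegrableOn.congr_fun (hcontd.integrableOn_compact isCompact_Icc) ?_
      measurableSet_Icc)
    intro t ht
    exact (hder t ht).symm
  have key := sum_mul_eq_sub_sub_integral_mul' c hNM
    (fun t ht => (hdiff t ht).differentiableAt) hint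
  have e1 : ∑ n ∈ Finset.Ioc N M, f n * (n : ℂ) ^ (-ρ) =
      ∑ k ∈ Finset.Ioc N M, (((k : ℝ) : ℂ) ^ (-ρ)) * c k := by
    refine Finset.sum_congr rfl fun n hn => ?_
    rw [Finset.mem_Ioc] at hn
    simp only [hcdef]
    rw [if_neg (by omega), mul_comm]
    simp
  rw [e1, key, hcs, hcs]
  have n1 : ∀ t : ℝ, 0 < t → ‖(t : ℂ) ^ (-ρ)‖ = t ^ (-ρ.re) := by
    intro t ht
    rw [Complex.norm_cpow_eq_rpow_re_of_pos ht]
    simp
  have n2 : ∀ t : ℝ, 0 < t → t ^ (-ρ.re) * t ^ σ = t ^ (-δ) := by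
    intro t ht
    rw [← Real.rpow_add ht]
    congr 1
    rw [hδ]; ring
  have bM : ‖(((M : ℝ) : ℂ) ^ (-ρ)) * ∑ n ∈ Finset.Icc 1 M, f n‖ ≤ B * (M : ℝ) ^ (-δ) := by
    rw [norm_mul, n1 _ hM0, ← n2 _ hM0]
    calc (M : ℝ) ^ (-ρ.re) * ‖∑ n ∈ Finset.Icc 1 M, f n‖
        ≤ (M : ℝ) ^ (-ρ.re) * (B * (M : ℝ) ^ σ) := by
          gcongr
          exact hB M (hN.trans hNM)
      _ = _ := by ring
  have bN : ‖(((N : ℝ) : ℂ) ^ (-ρ)) * ∑ n ∈ Finset.Icc 1 N, f n‖ ≤ B * (N : ℝ) ^ (-δ) := by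
    rw [norm_mul, n1 _ hN0, ← n2 _ hN0]
    calc (N : ℝ) ^ (-ρ.re) * ‖∑ n ∈ Finset.Icc 1 N, f n‖
        ≤ (N : ℝ) ^ (-ρ.re) * (B * (N : ℝ) ^ σ) := by
          gcongr
          exact hB N hN
      _ = _ := by ring
  -- the integral
  have bI : ‖∫ t in Set.Ioc (N : ℝ) M, deriv (fun t : ℝ => (t : ℂ) ^ (-ρ)) t *
      ∑ k ∈ Finset.Icc 0 ⌊t⌋₊, c k‖ ≤ B * (‖ρ‖ / δ) * (N : ℝ) ^ (-δ) := by
    have hint2 : IntegrableOn (fun t : ℝ => (‖ρ‖ * B) * t ^ (-δ - 1)) (Set.Ioc (N : ℝ) M) := by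
      have : IntegrableOn (fun t : ℝ => (‖ρ‖ * B) * t ^ (-δ - 1)) (Set.Icc (N : ℝ) M) := by
        refine ContinuousOn.integrableOn_compact isCompact_Icc ?_
        refine continuousOn_const.mul ?_
        intro t ht
        exact (Real.continuousAt_rpow_const t _
          (Or.inl (lt_of_lt_of_le hN0 ht.1).ne')).continuousWithinAt
      exact this.mono_set Set.Ioc_subset_Icc_self
    have h1 : ‖∫ t in Set.Ioc (N : ℝ) M, deriv (fun t : ℝ => (t : ℂ) ^ (-ρ)) t *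
      ∑ k ∈ Finset.Icc 0 ⌊t⌋₊, c k‖ ≤
        ∫ t in Set.Ioc (N : ℝ) M, (‖ρ‖ * B) * t ^ (-δ - 1) := by
      refine norm_integral_le_of_norm_le hint2 ?_
      refine (ae_restrict_iff' measurableSet_Ioc).2 (Eventually.of_forall fun t ht => ?_)
      have ht0 : 0 < t := lt_trans hN0 ht.1
      rw [hder t ⟨ht.1.le, ht.2⟩, hcs, norm_mul, norm_mul, norm_neg,
        Complex.norm_cpow_eq_rpow_re_of_pos ht0]
      have hfl : 1 ≤ ⌊t⌋₊ := by
        rw [Nat.one_le_floor_iff]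
        have : (1 : ℝ) ≤ N := by exact_mod_cast hN
        linarith [ht.1]
      have h2 := hB ⌊t⌋₊ hfl
      have h3 : ((⌊t⌋₊ : ℕ) : ℝ) ^ σ ≤ t ^ σ :=
        Real.rpow_le_rpow (by positivity) (Nat.floor_le ht0.le) hσ
      have h4 : (-ρ - 1).re = -ρ.re - 1 := by simp
      rw [h4]
      calc ‖ρ‖ * t ^ (-ρ.re - 1) * ‖∑ n ∈ Finset.Icc 1 ⌊t⌋₊, f n‖
          ≤ ‖ρ‖ * t ^ (-ρ.re - 1) * (B * t ^ σ) := by
            gcongr
            exact h2.trans (mul_le_mul_of_nonneg_left h3 hB0)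
        _ = ‖ρ‖ * B * (t ^ (-ρ.re - 1) * t ^ σ) := by ring
        _ = ‖ρ‖ * B * t ^ (-δ - 1) := by
            rw [← Real.rpow_add ht0]
            congr 2
            rw [hδ]; ring
    refine h1.trans ?_
    rw [← intervalIntegral.integral_of_le hNM', intervalIntegral.integral_const_mul,
      integral_rpow (Or.inr ⟨by linarith, by
        rw [Set.uIcc_of_le hNM']
        intro h0
        linarith [h0.1]⟩)]
    have e : -δ - 1 + 1 = -δ := by ring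
    rw [e]
    have hMp : 0 ≤ (M : ℝ) ^ (-δ) := by positivity
    have hNp : 0 ≤ (N : ℝ) ^ (-δ) := by positivity
    have e2 : ‖ρ‖ * B * (((M : ℝ) ^ (-δ) - (N : ℝ) ^ (-δ)) / -δ) =
        B * (‖ρ‖ / δ) * ((N : ℝ) ^ (-δ) - (M : ℝ) ^ (-δ)) := by
      field_simp
      ring
    rw [e2]
    have : 0 ≤ B * (‖ρ‖ / δ) := by positivity
    nlinarith
  calc _ ≤ ‖(((M : ℝ) : ℂ) ^ (-ρ)) * ∑ n ∈ Finset.Icc 1 M, f n‖ +
        ‖(((N : ℝ) : ℂ) ^ (-ρ)) * ∑ n ∈ Finset.Icc 1 N, f n‖ + _ := by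
          refine (norm_sub_le _ _).trans ?_
          gcongr
          exact norm_sub_le _ _
    _ ≤ _ := by linarith

/-- the partial sums at a zero -/
lemma zero_dec (f : ℕ → ℂ) (B σ : ℝ) (hσ : 0 ≤ σ)
    (hB : ∀ N : ℕ, 1 ≤ N → ‖∑ n ∈ Finset.Icc 1 N, f n‖ ≤ B * (N : ℝ) ^ σ)
    (ρ : ℂ) (hρ : σ < ρ.re)
    (hz : Tendsto (fun N : ℕ => ∑ n ∈ Finset.Icc 1 N, f n * (n : ℂ) ^ (-ρ)) atTop (𝓝 0))
    (N : ℕ) (hN : 1 ≤ N) :
    ‖∑ n ∈ Finset.Icc 1 N, f n * (n : ℂ) ^ (-ρ)‖ ≤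
      B * (1 + ‖ρ‖ / (ρ.re - σ)) * (N : ℝ) ^ (-(ρ.re - σ)) := by
  have h1 : ∀ᶠ M : ℕ in atTop, ‖(∑ n ∈ Finset.Icc 1 M, f n * (n : ℂ) ^ (-ρ)) -
      ∑ n ∈ Finset.Icc 1 N, f n * (n : ℂ) ^ (-ρ)‖ ≤
      B * (M : ℝ) ^ (-(ρ.re - σ)) + B * (1 + ‖ρ‖ / (ρ.re - σ)) * (N : ℝ) ^ (-(ρ.re - σ)) := by
    filter_upwards [eventually_ge_atTop N] with M hM
    have e : (∑ n ∈ Finset.Icc 1 M, f n * (n : ℂ) ^ (-ρ)) -
        ∑ n ∈ Finset.Icc 1 N, f n * (n : ℂ) ^ (-ρ) =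
        ∑ n ∈ Finset.Ioc N M, f n * (n : ℂ) ^ (-ρ) := by
      rw [sub_eq_iff_eq_add, add_comm]
      have h0 : Finset.Icc 1 M = Finset.Icc 1 N ∪ Finset.Ioc N M := by
        ext n
        simp only [Finset.mem_union, Finset.mem_Icc, Finset.mem_Ioc]
        omega
      rw [h0, Finset.sum_union]
      rw [Finset.disjoint_left]
      intro n h1 h2
      rw [Finset.mem_Icc] at h1
      rw [Finset.mem_Ioc] at h2
      omega
    rw [e]
    exact tail_bound f B σ hσ hB ρ hρ N M hN hM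
  have h2 : Tendsto (fun M : ℕ => ‖(∑ n ∈ Finset.Icc 1 M, f n * (n : ℂ) ^ (-ρ)) -
      ∑ n ∈ Finset.Icc 1 N, f n * (n : ℂ) ^ (-ρ)‖) atTop
      (𝓝 ‖0 - ∑ n ∈ Finset.Icc 1 N, f n * (n : ℂ) ^ (-ρ)‖) :=
    (hz.sub_const _).norm
  have h3 : Tendsto (fun M : ℕ => B * (M : ℝ) ^ (-(ρ.re - σ)) +
      B * (1 + ‖ρ‖ / (ρ.re - σ)) * (N : ℝ) ^ (-(ρ.re - σ))) atTop
      (𝓝 (B * 0 + B * (1 + ‖ρ‖ / (ρ.re - σ)) * (N : ℝ) ^ (-(ρ.re - σ)))) := by
    refine Tendsto.add_const _ (Tendsto.const_mul _ ?_)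
    exact (tendsto_rpow_neg_atTop (by linarith)).comp tendsto_natCast_atTop_atTop
  have h4 := le_of_tendsto_of_tendsto h2 h3 h1
  simpa using h4

end Pool.Agent.T6.H66.UG
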