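import Mathlib
import Pool.Agent.T6.H66.UG.Zero

/-!
# The final theorem
-/

set_option autoImplicit false

namespace Pool.Agent.T6.H66.UG

open Filter Topology MeasureTheory ArithmeticFunction
open Pool.H232R3

lemma ext0_dec (f : ℕ → ℂ) (A θ : ℝ)
    (h : ∀ N : ℕ, 1 ≤ N → ‖∑ n ∈ Finset.Icc 1 N, f n‖ ≤ A * (N : ℝ) ^ (-θ)) :
    Dec (fun n => ext0 f n) A θ := by
  intro N hN
  rw [ext0_SS]
  exact h N hN

lemma const_nonneg (f : ℕ → ℂ) (A θ : ℝ)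
    (h : ∀ N : ℕ, 1 ≤ N → ‖∑ n ∈ Finset.Icc 1 N, f n‖ ≤ A * (N : ℝ) ^ (-θ)) :
    ‖f 1‖ ≤ A := by
  have := h 1 le_rfl
  simpa using this

/-- the gap -/
theorem gap (ε : ℝ) (hε : 0 < ε) : ∃ c : ℝ, 0 < c ∧ ∀ (f : ℕ → ℂ) (A θ : ℝ), f 1 = 1 →
    (∀ m n : ℕ, 0 < m → 0 < n → f (m * n) = f m * f n) → 0 < θ →
    (∀ N : ℕ, 1 ≤ N → ‖∑ n ∈ Finset.Icc 1 N, f n‖ ≤ A * (N : ℝ) ^ (-θ)) →
    c ≤ (1 - θ) * A ^ (2 + ε) ∧
      ((∀ n : ℕ, 0 < n → (f n).im = 0) → c ≤ (1 - θ) * A ^ (1 + ε)) := by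
  obtain ⟨c1, hc1, h1⟩ := gap_cplx ε hε
  obtain ⟨c2, hc2, h2⟩ := gap_real ε hε
  refine ⟨min c1 c2, lt_min hc1 hc2, fun f A θ hf1 hf hθ hd => ?_⟩
  have e1 : ext0 f 1 = 1 := by rw [ext0_apply f 1 one_ne_zero]; exact hf1
  have em := ext0_mul f hf
  have hA : 0 ≤ A := (norm_nonneg _).trans (const_nonneg f A θ hd)
  have ed := ext0_dec f A θ hd
  constructor
  · exact (min_le_left _ _).trans (extend (ext0 f) A θ c1 _ hc1 hA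
      (fun θ' h0 h3 h4 => h1 (ext0 f) A θ' e1 em h0 h3 h4) hθ ed)
  · intro hre
    have er : ∀ n, (ext0 f n).im = 0 := by
      intro n
      rcases Nat.eq_zero_or_pos n with h0 | h0
      · rw [h0]; simp
      · rw [ext0_apply f n h0.ne']; exact hre n h0
    exact (min_le_right _ _).trans (extend (ext0 f) A θ c2 _ hc2 hA
      (fun θ' h0 h3 h4 => h2 (ext0 f) A θ' e1 em er h0 h3 h4) hθ ed)

/-- the zero-free region -/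
theorem region (ε : ℝ) (hε : 0 < ε) : ∃ c : ℝ, 0 < c ∧ ∀ (f : ℕ → ℂ) (B σ : ℝ) (ρ : ℂ), f 1 = 1 →
    (∀ m n : ℕ, 0 < m → 0 < n → f (m * n) = f m * f n) → 0 ≤ σ →
    (∀ N : ℕ, 1 ≤ N → ‖∑ n ∈ Finset.Icc 1 N, f n‖ ≤ B * (N : ℝ) ^ σ) →
    Tendsto (fun N : ℕ => ∑ n ∈ Finset.Icc 1 N, f n * (n : ℂ) ^ (-ρ)) atTop (𝓝 0) →
    c ≤ (1 + σ - ρ.re) * (B * (1 + ‖ρ‖)) ^ (2 + ε) ∧
      ((∀ n : ℕ, 0 < n → (f n).im = 0) → ρ.im = 0 →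
        c ≤ (1 + σ - ρ.re) * (B * (1 + ‖ρ‖)) ^ (1 + ε)) := by
  obtain ⟨c, hc, h⟩ := gap ε hε
  refine ⟨min (c / 2 ^ (2 + ε)) (1 / 2), by positivity, fun f B σ ρ hf1 hf hσ hB hz => ?_⟩
  have hB1 : 1 ≤ B := by
    have := hB 1 le_rfl
    simpa [hf1] using this
  have hX : 1 ≤ B * (1 + ‖ρ‖) := by
    have := norm_nonneg ρ
    nlinarith
  rcases lt_or_ge (ρ.re - σ) (1 / 2) with hδ | hδ
  · have hh : ∀ k : ℝ, 0 ≤ k → 1 / 2 ≤ (1 + σ - ρ.re) * (B * (1 + ‖ρ‖)) ^ k := by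
      intro k hk
      have := Real.one_le_rpow hX hk
      nlinarith
    exact ⟨(min_le_right _ _).trans (hh _ (by linarith)),
      fun _ _ => (min_le_right _ _).trans (hh _ (by linarith))⟩
  · set g : ℕ → ℂ := fun n => f n * (n : ℂ) ^ (-ρ) with hg
    have g1 : g 1 = 1 := by simp [hg, hf1]
    have gm : ∀ m n : ℕ, 0 < m → 0 < n → g (m * n) = g m * g n := by
      intro m n hm hn
      simp only [hg]
      rw [hf m n hm hn, Nat.cast_mul, Complex.natCast_mul_natCast_cpow]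
      ring
    have hd : ∀ N : ℕ, 1 ≤ N → ‖∑ n ∈ Finset.Icc 1 N, g n‖ ≤
        (2 * (B * (1 + ‖ρ‖))) * (N : ℝ) ^ (-(ρ.re - σ)) := by
      intro N hN
      refine (zero_dec f B σ hσ hB ρ (by linarith) hz N hN).trans ?_
      have h1 : B * (1 + ‖ρ‖ / (ρ.re - σ)) ≤ 2 * (B * (1 + ‖ρ‖)) := by
        have h2 : ‖ρ‖ / (ρ.re - σ) ≤ 2 * ‖ρ‖ := by
          rw [div_le_iff₀ (by linarith)]
          have := norm_nonneg ρ
          nlinarith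
        have := norm_nonneg ρ
        nlinarith
      exact mul_le_mul_of_nonneg_right h1 (by positivity)
    have hmain := h g (2 * (B * (1 + ‖ρ‖))) (ρ.re - σ) g1 gm (by linarith) hd
    have fin : ∀ k : ℝ, k ≤ 2 + ε → c ≤ (1 - (ρ.re - σ)) * (2 * (B * (1 + ‖ρ‖))) ^ k →
        c / 2 ^ (2 + ε) ≤ (1 + σ - ρ.re) * (B * (1 + ‖ρ‖)) ^ k := by
      intro k hk h3
      rw [Real.mul_rpow (by norm_num) (by linarith)] at h3
      have hp : 0 < (B * (1 + ‖ρ‖)) ^ k := Real.rpow_pos_of_pos (by linarith) _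
      have h2k : (2 : ℝ) ^ k ≤ 2 ^ (2 + ε) := Real.rpow_le_rpow_of_exponent_le (by norm_num) hk
      have h2p : 0 < (2 : ℝ) ^ k := by positivity
      have h5 : 0 < 1 + σ - ρ.re := by
        by_contra hcon
        push Not at hcon
        have : (1 - (ρ.re - σ)) * (2 ^ k * (B * (1 + ‖ρ‖)) ^ k) ≤ 0 :=
          mul_nonpos_of_nonpos_of_nonneg (by linarith) (by positivity)
        linarith
      rw [div_le_iff₀ (by positivity)]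
      calc c ≤ (1 - (ρ.re - σ)) * (2 ^ k * (B * (1 + ‖ρ‖)) ^ k) := h3
        _ = ((1 + σ - ρ.re) * (B * (1 + ‖ρ‖)) ^ k) * 2 ^ k := by ring
        _ ≤ ((1 + σ - ρ.re) * (B * (1 + ‖ρ‖)) ^ k) * 2 ^ (2 + ε) := by gcongr
    refine ⟨(min_le_left _ _).trans (fin _ le_rfl hmain.1), fun hre hρ => ?_⟩
    refine (min_le_left _ _).trans (fin _ (by linarith) (hmain.2 ?_))
    intro n hn
    simp only [hg]
    have hρr : -ρ = ((-ρ.re : ℝ) : ℂ) := by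
      apply Complex.ext <;> simp [hρ]
    rw [hρr, show ((n : ℂ)) = ((n : ℝ) : ℂ) by simp, ← Complex.ofReal_cpow (by positivity),
      Complex.im_mul_ofReal, hre n hn, zero_mul]

/-- The main theorem. -/
theorem main (ε : ℝ) (hε : 0 < ε) : ∃ c : ℝ, 0 < c ∧
    (∀ (f : ℕ → ℂ) (A θ : ℝ), f 1 = 1 →
      (∀ m n : ℕ, 0 < m → 0 < n → f (m * n) = f m * f n) → 0 < θ →
      (∀ N : ℕ, 1 ≤ N → ‖∑ n ∈ Finset.Icc 1 N, f n‖ ≤ A * (N : ℝ) ^ (-θ)) →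
      c ≤ (1 - θ) * A ^ (2 + ε) ∧
        ((∀ n : ℕ, 0 < n → (f n).im = 0) → c ≤ (1 - θ) * A ^ (1 + ε))) ∧
    (∀ (f : ℕ → ℂ) (B σ : ℝ) (ρ : ℂ), f 1 = 1 →
      (∀ m n : ℕ, 0 < m → 0 < n → f (m * n) = f m * f n) → 0 ≤ σ →
      (∀ N : ℕ, 1 ≤ N → ‖∑ n ∈ Finset.Icc 1 N, f n‖ ≤ B * (N : ℝ) ^ σ) →
      Tendsto (fun N : ℕ => ∑ n ∈ Finset.Icc 1 N, f n * (n : ℂ) ^ (-ρ)) atTop (𝓝 0) →
      c ≤ (1 + σ - ρ.re) * (B * (1 + ‖ρ‖)) ^ (2 + ε) ∧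
        ((∀ n : ℕ, 0 < n → (f n).im = 0) → ρ.im = 0 →
          c ≤ (1 + σ - ρ.re) * (B * (1 + ‖ρ‖)) ^ (1 + ε))) := by
  obtain ⟨c1, hc1, h1⟩ := gap ε hε
  obtain ⟨c2, hc2, h2⟩ := region ε hε
  refine ⟨min c1 c2, lt_min hc1 hc2, fun f A θ hf1 hf hθ hd => ?_,
    fun f B σ ρ hf1 hf hσ hB hz => ?_⟩
  · have := h1 f A θ hf1 hf hθ hd
    exact ⟨(min_le_left _ _).trans this.1, fun hre => (min_le_left _ _).trans (this.2 hre)⟩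
  · have := h2 f B σ ρ hf1 hf hσ hB hz
    exact ⟨(min_le_right _ _).trans this.1, fun hre hρ => (min_le_right _ _).trans (this.2 hre hρ)⟩

end Pool.Agent.T6.H66.UG
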